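import Mathlib

/-!
# Job LA1: counting core of a lower bound, version with an anchor set

Plain words.  This is a variant of the job LO1 (its proof is in
`Pool/Agent/Helper650_HSK/LO1.lean` on origin/main, you may copy any part of it).  `S0` is the set
of the first `s` vertices, `I` the set of the others.  We look at the sets `e = insert a f` with
`a ∈ S0`, `f ⊆ I`, `|f| = d - 1`; there are `s * choose (n - s) (d - 1)` of them.  For `C` let `S C` be
the set of all `a'` and `I C` the union of all `f'` with `C ∈ Cl (insert a' f')`.  The number of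
possible `C` (sets of size at most `d` in `Fin N`) is at most `(N+1)^d`.  Call `C ∈ Cl (insert a f)`
private if `S C = {a}` and `I C = f`; the number of pairs `(a, f)` having a private `C` is at most
`(N+1)^d`.  Let `(a, f)` have no private `C`.  Then at least `k - (s₁ + s₂) + 1` of the
`C ∈ Cl (insert a f)` have `|S C \ {a}| < L₁` and `|I C \ f| < L₂`: otherwise choose (greedy lemma, in the
ground set `S0` of size `s`) a set `Z1` of at most `s₁` points meeting all `S C \ {a}` of size at
least `L₁` (`Z1` inside the union of these sets), (greedy lemma, ground set `Fin n`) a set `Z2` of at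
most `s₂` points meeting all `I C \ f` of size at least `L₂` (inside their union), one point of
`(S C \ {a}) ∪ (I C \ f)` for each of the other `C ∈ Cl (insert a f)` (at most `k - (s₁ + s₂)` of
them; the set is nonempty since `C` is not private), and enlarge the union of these
points to a set `Z` of size exactly `k` disjoint from `insert a f` (possible since `k + d ≤ n`); then
no `C` is as in the hypothesis, a contradiction.  Each `C` with `|S C| ≤ L₁` and `|I C| ≤ L₂ + d` is
in `Cl (insert a f)` for at most `L₁ (L₂+d)^(d-1)` pairs `(a, f)`.  Double counting gives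
`(s choose (n-s) (d-1) - (N+1)^d) (k - (s₁+s₂) + 1) ≤ (N+1)^d L₁ (L₂+d)^(d-1)`.
-/

namespace Pool.Agent.Helper650_LocR

theorem h916_point {α : Type} [DecidableEq α] (U : Finset α) (L : ℕ) (F : Finset (Finset α))
    (hU : ∀ A ∈ F, A ⊆ U) (hF : ∀ A ∈ F, L ≤ A.card) (hn : 0 < U.card) :
    ∃ x ∈ U, L * F.card ≤ U.card * (F.filter (fun A => x ∈ A)).card := by
  by_contra hcon
  push Not at hcon
  have h1 : ∑ x ∈ U, (F.filter (fun A => x ∈ A)).card = ∑ A ∈ F, A.card := by
    simp only [Finset.card_filter]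
    rw [Finset.sum_comm]
    refine Finset.sum_congr rfl fun A hA => ?_
    rw [← Finset.card_filter]
    congr 1
    ext x
    rw [Finset.mem_filter]
    exact ⟨fun h => h.2, fun h => ⟨hU A hA h, h⟩⟩
  have h2 : L * F.card ≤ ∑ A ∈ F, A.card := by
    calc L * F.card = ∑ _A ∈ F, L := by simp [mul_comm]
      _ ≤ _ := Finset.sum_le_sum hF
  have h3 : ∑ x ∈ U, U.card * (F.filter (fun A => x ∈ A)).card < ∑ _x ∈ U, L * F.card :=
    Finset.sum_lt_sum_of_nonempty (Finset.card_pos.1 hn) hcon
  rw [← Finset.mul_sum, h1, Finset.sum_const, smul_eq_mul] at h3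
  have h4 := Nat.lt_of_mul_lt_mul_left h3
  omega

theorem h916_greedy {α : Type} [DecidableEq α] (U : Finset α) (L s : ℕ) (F : Finset (Finset α))
    (hU : ∀ A ∈ F, A ⊆ U) (hF : ∀ A ∈ F, L ≤ A.card)
    (h : F.card * (U.card - L) ^ s < U.card ^ s) :
    ∃ Z : Finset α, Z ⊆ F.biUnion id ∧ Z.card ≤ s ∧ ∀ A ∈ F, ∃ x ∈ A, x ∈ Z := by
  induction s generalizing F with
  | zero =>
    have : F = ∅ := by
      rw [← Finset.card_eq_zero]
      simpa using h
    subst this
    exact ⟨∅, by simp, by simp, by simp⟩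
  | succ s ih =>
    rcases F.eq_empty_or_nonempty with rfl | hne
    · exact ⟨∅, by simp, by simp, by simp⟩
    have hFc : 0 < F.card := Finset.card_pos.2 hne
    have hL : 0 < L := by
      rcases Nat.eq_zero_or_pos L with h0 | h0
      · exfalso
        subst h0
        simp only [Nat.sub_zero] at h
        have : 1 * U.card ^ (s + 1) ≤ F.card * U.card ^ (s + 1) :=
          Nat.mul_le_mul_right _ hFc
        omega
      · exact h0
    obtain ⟨A₀, hA₀⟩ := hne
    have hnL : L ≤ U.card := (hF A₀ hA₀).trans (Finset.card_le_card (hU A₀ hA₀))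
    have hn : 0 < U.card := by omega
    obtain ⟨x, _, hx⟩ := h916_point U L F hU hF hn
    have hsplit : (F.filter (fun A => x ∈ A)).card + (F.filter (fun A => ¬ x ∈ A)).card = F.card :=
      Finset.card_filter_add_card_filter_not (s := F) (p := fun A => x ∈ A)
    have hlt : (F.filter (fun A => ¬ x ∈ A)).card * (U.card - L) ^ s <
        U.card ^ s := by
      have h1 : U.card * (F.filter (fun A => ¬ x ∈ A)).card ≤
          (U.card - L) * F.card := by
        obtain ⟨c, hc⟩ := Nat.exists_eq_add_of_le hnL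
        rw [hc] at hx ⊢
        have : L + c - L = c := by omega
        rw [this]
        nlinarith
      have h2 : U.card * ((F.filter (fun A => ¬ x ∈ A)).card *
          (U.card - L) ^ s) < U.card * U.card ^ s := by
        calc U.card * ((F.filter (fun A => ¬ x ∈ A)).card * (U.card - L) ^ s)
            = (U.card * (F.filter (fun A => ¬ x ∈ A)).card) *
                (U.card - L) ^ s := by ring
          _ ≤ ((U.card - L) * F.card) * (U.card - L) ^ s :=
              Nat.mul_le_mul_right _ h1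
          _ = F.card * (U.card - L) ^ (s + 1) := by ring
          _ < U.card ^ (s + 1) := h
          _ = U.card * U.card ^ s := by ring
      exact Nat.lt_of_mul_lt_mul_left h2
    obtain ⟨Z, hZ1, hZ2, hZ3⟩ := ih (F.filter (fun A => ¬ x ∈ A))
      (fun A hA => hU A (Finset.mem_of_mem_filter A hA))
      (fun A hA => hF A (Finset.mem_of_mem_filter A hA)) hlt
    refine ⟨insert x Z, ?_, (Finset.card_insert_le _ _).trans (by omega), ?_⟩
    · intro y hy
      rcases Finset.mem_insert.1 hy with rfl | hy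
      · have : 0 < (F.filter (fun A => y ∈ A)).card := by
          by_contra h0
          have h0' : (F.filter (fun A => y ∈ A)).card = 0 := by omega
          rw [h0'] at hx
          have : 0 < L * F.card := Nat.mul_pos hL hFc
          omega
        obtain ⟨A, hA⟩ := Finset.card_pos.1 this
        rw [Finset.mem_filter] at hA
        exact Finset.mem_biUnion.2 ⟨A, hA.1, hA.2⟩
      · obtain ⟨A, hA, hyA⟩ := Finset.mem_biUnion.1 (hZ1 hy)
        exact Finset.mem_biUnion.2 ⟨A, Finset.mem_of_mem_filter A hA, hyA⟩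
    · intro A hA
      by_cases hxA : x ∈ A
      · exact ⟨x, hxA, Finset.mem_insert_self _ _⟩
      · obtain ⟨y, hy, hyZ⟩ := hZ3 A (Finset.mem_filter.2 ⟨hA, hxA⟩)
        exact ⟨y, hy, Finset.mem_insert_of_mem hyZ⟩

/-- The number of sets of size at most `d` in `Fin N`. -/
theorem h916_small (N d : ℕ) :
    ((Finset.univ : Finset (Finset (Fin N))).filter (fun C => C.card ≤ d)).card ≤ (N + 1) ^ d := by
  classical
  have h1 : ((Finset.univ : Finset (Finset (Fin N))).filter (fun C => C.card ≤ d)) ⊆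
      (Finset.univ : Finset (Fin d → Option (Fin N))).image
        (fun g => Finset.univ.filter (fun x => ∃ i, g i = some x)) := by
    intro C hC
    rw [Finset.mem_filter] at hC
    rw [Finset.mem_image]
    refine ⟨fun i => if h : (i : ℕ) < C.card then some (C.equivFin.symm ⟨i, h⟩ : Fin N) else none,
      Finset.mem_univ _, ?_⟩
    ext x
    simp only [Finset.mem_filter, Finset.mem_univ, true_and]
    constructor
    · rintro ⟨i, hi⟩
      by_cases h : (i : ℕ) < C.card
      · rw [dif_pos h] at hi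
        have := Option.some_injective _ hi
        rw [← this]
        exact (C.equivFin.symm ⟨i, h⟩).2
      · rw [dif_neg h] at hi
        exact absurd hi (by simp)
    · intro hx
      have hlt : ((C.equivFin ⟨x, hx⟩ : Fin C.card) : ℕ) < d :=
        lt_of_lt_of_le (C.equivFin ⟨x, hx⟩).2 hC.2
      refine ⟨⟨(C.equivFin ⟨x, hx⟩ : Fin C.card), hlt⟩, ?_⟩
      simp
  refine (Finset.card_le_card h1).trans (Finset.card_image_le.trans ?_)
  simp

/-- TARGET 1. -/
theorem la_core (d n s k N s₁ s₂ L₁ L₂ : ℕ) (hd : 1 ≤ d) (hn : k + d ≤ n) (hsn : s ≤ n)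
    (hs : s₁ + s₂ ≤ k)
    (Cl : Finset (Fin n) → Finset (Finset (Fin N))) (hcard : ∀ e, ∀ C ∈ Cl e, C.card ≤ d)
    (h : ∀ (Z f : Finset (Fin n)) (a : Fin n), Z.card = k → a.val < s → f.card = d - 1 →
      (∀ v ∈ f, s ≤ v.val) → Disjoint (insert a f) Z →
      ∃ C ∈ Cl (insert a f), ∀ (f' : Finset (Fin n)) (a' : Fin n), a'.val < s →
        f'.card = d - 1 → (∀ v ∈ f', s ≤ v.val) → C ∈ Cl (insert a' f') →
        Disjoint (insert a' f') Z)
    (hL₁ : (N + 1) ^ d * (s - L₁) ^ s₁ < s ^ s₁) (hL₂ : (N + 1) ^ d * (n - L₂) ^ s₂ < n ^ s₂) :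
    s * (n - s).choose (d - 1) ≤ 2 * (N + 1) ^ d ∨
      s * (n - s).choose (d - 1) * (k - (s₁ + s₂) + 1) ≤
        2 * ((N + 1) ^ d * (L₁ * (L₂ + d) ^ (d - 1))) := by
  classical
  set CC := (Finset.univ : Finset (Finset (Fin N))).filter (fun C => C.card ≤ d) with hCC
  have hCCc : CC.card ≤ (N + 1) ^ d := h916_small N d
  have hClCC : ∀ e, Cl e ⊆ CC := fun e C hC =>
    Finset.mem_filter.2 ⟨Finset.mem_univ _, hcard e C hC⟩
  set S0 := (Finset.univ : Finset (Fin n)).filter (fun v => v.val < s) with hS0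
  set I0 := (Finset.univ : Finset (Fin n)).filter (fun v => s ≤ v.val) with hI0
  have hS0m : ∀ v, v ∈ S0 ↔ v.val < s := by simp [hS0]
  have hI0m : ∀ v, v ∈ I0 ↔ s ≤ v.val := by simp [hI0]
  have hS0c : S0.card = s := by
    have h1 : S0 = (Finset.univ : Finset (Fin s)).map (Fin.castLEEmb hsn) := by
      ext v
      rw [hS0m, Finset.mem_map]
      constructor
      · intro hv
        exact ⟨⟨v.val, hv⟩, Finset.mem_univ _, by ext; rfl⟩
      · rintro ⟨w, _, rfl⟩
        exact w.isLt
    rw [h1, Finset.card_map, Finset.card_univ, Fintype.card_fin]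
  have hI0c : I0.card = n - s := by
    have h1 : I0 = S0ᶜ := by
      ext v
      rw [hI0m, Finset.mem_compl, hS0m, not_lt]
    rw [h1, Finset.card_compl, Fintype.card_fin, hS0c]
  set E := S0 ×ˢ I0.powersetCard (d - 1) with hE
  have hEc : E.card = s * (n - s).choose (d - 1) := by
    rw [hE, Finset.card_product, Finset.card_powersetCard, hS0c, hI0c]
  have hEm : ∀ p, p ∈ E ↔ p.1.val < s ∧ p.2 ⊆ I0 ∧ p.2.card = d - 1 := by
    intro p
    rw [hE, Finset.mem_product, hS0m, Finset.mem_powersetCard]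
  obtain ⟨SC, hSCd⟩ : ∃ SC : Finset (Fin N) → Finset (Fin n), ∀ C x, x ∈ SC C ↔
      ∃ p ∈ E, C ∈ Cl (insert p.1 p.2) ∧ p.1 = x :=
    ⟨fun C => (E.filter (fun p => C ∈ Cl (insert p.1 p.2))).image Prod.fst, fun C x => by
      rw [Finset.mem_image]
      constructor
      · rintro ⟨p, hp, rfl⟩
        exact ⟨p, (Finset.mem_filter.1 hp).1, (Finset.mem_filter.1 hp).2, rfl⟩
      · rintro ⟨p, hp, hp2, rfl⟩
        exact ⟨p, Finset.mem_filter.2 ⟨hp, hp2⟩, rfl⟩⟩
  obtain ⟨IC, hICd⟩ : ∃ IC : Finset (Fin N) → Finset (Fin n), ∀ C x, x ∈ IC C ↔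
      ∃ p ∈ E, C ∈ Cl (insert p.1 p.2) ∧ x ∈ p.2 :=
    ⟨fun C => (E.filter (fun p => C ∈ Cl (insert p.1 p.2))).biUnion Prod.snd, fun C x => by
      rw [Finset.mem_biUnion]
      constructor
      · rintro ⟨p, hp, hx⟩
        exact ⟨p, (Finset.mem_filter.1 hp).1, (Finset.mem_filter.1 hp).2, hx⟩
      · rintro ⟨p, hp, hp2, hx⟩
        exact ⟨p, Finset.mem_filter.2 ⟨hp, hp2⟩, hx⟩⟩
  have hSC : ∀ p ∈ E, ∀ C ∈ Cl (insert p.1 p.2), p.1 ∈ SC C := fun p hp C hC =>
    (hSCd C _).2 ⟨p, hp, hC, rfl⟩
  have hIC : ∀ p ∈ E, ∀ C ∈ Cl (insert p.1 p.2), p.2 ⊆ IC C := fun p hp C hC x hx =>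
    (hICd C _).2 ⟨p, hp, hC, hx⟩
  have hSCS : ∀ C, SC C ⊆ S0 := by
    intro C x hx
    obtain ⟨p, hp, _, rfl⟩ := (hSCd C x).1 hx
    exact (hS0m _).2 ((hEm p).1 hp).1
  have hICI : ∀ C, IC C ⊆ I0 := by
    intro C x hx
    obtain ⟨p, hp, _, hxp⟩ := (hICd C x).1 hx
    exact ((hEm p).1 hp).2.1 hxp
  obtain ⟨Pv, hPv⟩ : ∃ Pv : Fin n × Finset (Fin n) → Prop, ∀ p, Pv p ↔
      ∃ C ∈ Cl (insert p.1 p.2), SC C = {p.1} ∧ IC C = p.2 := ⟨_, fun _ => Iff.rfl⟩
  set Ep := E.filter (fun p => Pv p) with hEp
  set En := E.filter (fun p => ¬ Pv p) with hEn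
  have hsplit : Ep.card + En.card = E.card :=
    Finset.card_filter_add_card_filter_not (s := E) (p := fun p => Pv p)
  have hEpc : Ep.card ≤ (N + 1) ^ d := by
    refine le_trans ?_ hCCc
    have h1 : (Ep.image (fun p => (({p.1} : Finset (Fin n)), p.2))).card = Ep.card := by
      apply Finset.card_image_of_injective
      intro p q hpq
      have h2 := congrArg Prod.fst hpq
      have h3 := congrArg Prod.snd hpq
      exact Prod.ext (Finset.singleton_injective h2) h3
    rw [← h1]
    have : Ep.image (fun p => (({p.1} : Finset (Fin n)), p.2)) ⊆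
        CC.image (fun C => (SC C, IC C)) := by
      intro q hq
      obtain ⟨p, hp, rfl⟩ := Finset.mem_image.1 hq
      obtain ⟨C, hC, hC1, hC2⟩ := (hPv p).1 (Finset.mem_filter.1 hp).2
      exact Finset.mem_image.2 ⟨C, hClCC _ hC, by rw [hC1, hC2]⟩
    exact (Finset.card_le_card this).trans Finset.card_image_le
  set G : Fin n × Finset (Fin n) → Finset (Finset (Fin N)) :=
    fun p => (Cl (insert p.1 p.2)).filter
      (fun C => (SC C \ {p.1}).card < L₁ ∧ (IC C \ p.2).card < L₂) with hG
  have hGc : ∀ p ∈ En, k - (s₁ + s₂) + 1 ≤ (G p).card := by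
    rintro ⟨a, f⟩ hp
    obtain ⟨hpE, hpriv⟩ := Finset.mem_filter.1 hp
    rw [hPv] at hpriv
    obtain ⟨haS, hfI, hfc⟩ := (hEm _).1 hpE
    dsimp only at haS hfI hfc
    push Not at hpriv
    by_contra hlt
    push Not at hlt
    set e := insert a f with he
    set F1 := ((Cl e).filter (fun C => L₁ ≤ (SC C \ {a}).card)).image (fun C => SC C \ {a})
      with hF1
    set F2 := ((Cl e).filter (fun C => L₂ ≤ (IC C \ f).card)).image (fun C => IC C \ f)
      with hF2
    have hF1c : F1.card ≤ (N + 1) ^ d :=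
      (Finset.card_image_le.trans (Finset.card_filter_le _ _)).trans
        ((Finset.card_le_card (hClCC e)).trans hCCc)
    have hF2c : F2.card ≤ (N + 1) ^ d :=
      (Finset.card_image_le.trans (Finset.card_filter_le _ _)).trans
        ((Finset.card_le_card (hClCC e)).trans hCCc)
    obtain ⟨Z1, hZ1a, hZ1b, hZ1c⟩ := h916_greedy S0 L₁ s₁ F1 (by
      intro A hA
      obtain ⟨C, hC, rfl⟩ := Finset.mem_image.1 hA
      exact Finset.sdiff_subset.trans (hSCS C)) (by
      intro A hA
      obtain ⟨C, hC, rfl⟩ := Finset.mem_image.1 hA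
      exact (Finset.mem_filter.1 hC).2) (by
      rw [hS0c]
      exact lt_of_le_of_lt (Nat.mul_le_mul_right _ hF1c) hL₁)
    obtain ⟨Z2, hZ2a, hZ2b, hZ2c⟩ := h916_greedy (Finset.univ : Finset (Fin n)) L₂ s₂ F2
      (fun A _ => Finset.subset_univ A) (by
      intro A hA
      obtain ⟨C, hC, rfl⟩ := Finset.mem_image.1 hA
      exact (Finset.mem_filter.1 hC).2) (by
      rw [Finset.card_univ, Fintype.card_fin]
      exact lt_of_le_of_lt (Nat.mul_le_mul_right _ hF2c) hL₂)
    have hex : ∀ C ∈ Cl e, ∃ x, x ∈ (SC C \ {a}) ∪ (IC C \ f) := by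
      intro C hC
      by_contra hcon
      push Not at hcon
      have h1 : SC C = {a} := by
        refine Finset.Subset.antisymm ?_ ?_
        · intro x hx
          by_contra hxe
          exact hcon x (Finset.mem_union_left _ (Finset.mem_sdiff.2 ⟨hx, hxe⟩))
        · rw [Finset.singleton_subset_iff]
          exact hSC (a, f) hpE C hC
      have h2 : IC C = f := by
        refine Finset.Subset.antisymm ?_ (hIC (a, f) hpE C hC)
        intro x hx
        by_contra hxe
        exact hcon x (Finset.mem_union_right _ (Finset.mem_sdiff.2 ⟨hx, hxe⟩))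
      exact hpriv C hC h1 h2
    have : Nonempty (Fin n) := ⟨a⟩
    choose! pt hpt using hex
    set Z0 := Z1 ∪ Z2 ∪ (G (a, f)).image pt with hZ0
    have hZ0c : Z0.card ≤ k := by
      have h1 := Finset.card_union_le (Z1 ∪ Z2) ((G (a, f)).image pt)
      have h1' := Finset.card_union_le Z1 Z2
      have h2 : ((G (a, f)).image pt).card ≤ (G (a, f)).card := Finset.card_image_le
      rw [hZ0]
      omega
    have hofS : ∀ C x, x ∈ SC C \ {a} → x ∈ eᶜ := by
      intro C x hx
      obtain ⟨h1, h2⟩ := Finset.mem_sdiff.1 hx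
      rw [Finset.mem_compl, he, Finset.mem_insert]
      rintro (h3 | h3)
      · exact h2 (Finset.mem_singleton.2 h3)
      · have h4 := (hI0m _).1 (hfI h3)
        have h5 := (hS0m _).1 (hSCS C h1)
        omega
    have hofI : ∀ C x, x ∈ IC C \ f → x ∈ eᶜ := by
      intro C x hx
      obtain ⟨h1, h2⟩ := Finset.mem_sdiff.1 hx
      rw [Finset.mem_compl, he, Finset.mem_insert]
      rintro (h3 | h3)
      · have h4 := (hI0m _).1 (hICI C h1)
        rw [h3] at h4
        omega
      · exact h2 h3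
    have hZ0e : Z0 ⊆ eᶜ := by
      intro x hx
      rcases Finset.mem_union.1 hx with hx | hx
      · rcases Finset.mem_union.1 hx with hx | hx
        · obtain ⟨A, hA, hxA⟩ := Finset.mem_biUnion.1 (hZ1a hx)
          obtain ⟨C, _, rfl⟩ := Finset.mem_image.1 hA
          exact hofS C x hxA
        · obtain ⟨A, hA, hxA⟩ := Finset.mem_biUnion.1 (hZ2a hx)
          obtain ⟨C, _, rfl⟩ := Finset.mem_image.1 hA
          exact hofI C x hxA
      · obtain ⟨C, hC, rfl⟩ := Finset.mem_image.1 hx
        rcases Finset.mem_union.1 (hpt C (Finset.mem_filter.1 hC).1) with h1 | h1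
        · exact hofS C _ h1
        · exact hofI C _ h1
    have hec : e.card ≤ d := by
      have := Finset.card_insert_le a f
      rw [he]
      omega
    obtain ⟨Z, hZa, hZb, hZc⟩ := Finset.exists_subsuperset_card_eq hZ0e hZ0c (by
      rw [Finset.card_compl, Fintype.card_fin]; omega)
    have hdis : Disjoint e Z := by
      rw [Finset.disjoint_left]
      intro x hx hxZ
      exact (Finset.mem_compl.1 (hZb hxZ)) hx
    obtain ⟨C, hC, hCd⟩ := h Z f a hZc haS hfc (fun v hv => (hI0m v).1 (hfI hv)) hdis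
    have hWZ : ∀ x, x ∈ SC C ∨ x ∈ IC C → x ∉ Z := by
      intro x hx
      rcases hx with hx | hx
      · obtain ⟨q, hqE, hqC, rfl⟩ := (hSCd C x).1 hx
        obtain ⟨q1, q2, q3⟩ := (hEm q).1 hqE
        exact Finset.disjoint_left.1 (hCd q.2 q.1 q1 q3 (fun v hv => (hI0m v).1 (q2 hv)) hqC)
          (Finset.mem_insert_self _ _)
      · obtain ⟨q, hqE, hqC, hxq⟩ := (hICd C x).1 hx
        obtain ⟨q1, q2, q3⟩ := (hEm q).1 hqE
        exact Finset.disjoint_left.1 (hCd q.2 q.1 q1 q3 (fun v hv => (hI0m v).1 (q2 hv)) hqC)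
          (Finset.mem_insert_of_mem hxq)
    by_cases hsm1 : (SC C \ {a}).card < L₁
    · by_cases hsm2 : (IC C \ f).card < L₂
      · have hx := hpt C hC
        have hxZ : pt C ∈ Z := hZa (Finset.mem_union_right _ (Finset.mem_image.2
          ⟨C, Finset.mem_filter.2 ⟨hC, hsm1, hsm2⟩, rfl⟩))
        rcases Finset.mem_union.1 hx with h1 | h1
        · exact hWZ _ (Or.inl (Finset.mem_sdiff.1 h1).1) hxZ
        · exact hWZ _ (Or.inr (Finset.mem_sdiff.1 h1).1) hxZ
      · push Not at hsm2
        obtain ⟨x, hx, hxZ⟩ := hZ2c (IC C \ f) (Finset.mem_image.2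
          ⟨C, Finset.mem_filter.2 ⟨hC, hsm2⟩, rfl⟩)
        exact hWZ x (Or.inr (Finset.mem_sdiff.1 hx).1)
          (hZa (Finset.mem_union_left _ (Finset.mem_union_right _ hxZ)))
    · push Not at hsm1
      obtain ⟨x, hx, hxZ⟩ := hZ1c (SC C \ {a}) (Finset.mem_image.2
        ⟨C, Finset.mem_filter.2 ⟨hC, hsm1⟩, rfl⟩)
      exact hWZ x (Or.inl (Finset.mem_sdiff.1 hx).1)
        (hZa (Finset.mem_union_left _ (Finset.mem_union_left _ hxZ)))
  have hcount : ∑ p ∈ En, (G p).card ≤ (N + 1) ^ d * (L₁ * (L₂ + d) ^ (d - 1)) := by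
    have h1 : ∑ p ∈ En, (G p).card = ∑ C ∈ CC, (En.filter (fun p => C ∈ G p)).card := by
      have h2 : ∀ p ∈ En, (G p).card = ∑ C ∈ CC, if C ∈ G p then 1 else 0 := by
        intro p _
        rw [← Finset.card_filter]
        have h3 : CC.filter (fun C => C ∈ G p) = G p := by
          ext C
          rw [Finset.mem_filter]
          constructor
          · exact fun hC => hC.2
          · intro hC
            exact ⟨hClCC _ (Finset.mem_filter.1 hC).1, hC⟩
        rw [h3]
      rw [Finset.sum_congr rfl h2, Finset.sum_comm]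
      refine Finset.sum_congr rfl fun C _ => ?_
      rw [Finset.card_filter]
    rw [h1]
    have h3 : ∀ C ∈ CC, (En.filter (fun p => C ∈ G p)).card ≤ L₁ * (L₂ + d) ^ (d - 1) := by
      intro C _
      rcases (En.filter (fun p => C ∈ G p)).eq_empty_or_nonempty with h0 | ⟨p₀, hp₀⟩
      · rw [h0]; simp
      · obtain ⟨he1, he2⟩ := Finset.mem_filter.1 hp₀
        obtain ⟨he3, he4, he5⟩ := Finset.mem_filter.1 he2
        have hpE := (hEm p₀).1 (Finset.mem_filter.1 he1).1
        have hSc : (SC C).card ≤ L₁ := by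
          have h5 : (SC C).card ≤ (SC C \ {p₀.1}).card + ({p₀.1} : Finset (Fin n)).card := by
            have := Finset.card_le_card (Finset.subset_union_left (s₁ := SC C) (s₂ := {p₀.1}))
            have h6 : SC C ∪ {p₀.1} = (SC C \ {p₀.1}) ∪ {p₀.1} := by
              rw [Finset.sdiff_union_self_eq_union]
            rw [h6] at this
            exact this.trans (Finset.card_union_le _ _)
          rw [Finset.card_singleton] at h5
          omega
        have hIc : (IC C).card ≤ L₂ + d := by
          have h5 : (IC C).card ≤ (IC C \ p₀.2).card + p₀.2.card := by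
            have := Finset.card_le_card (Finset.subset_union_left (s₁ := IC C) (s₂ := p₀.2))
            have h6 : IC C ∪ p₀.2 = (IC C \ p₀.2) ∪ p₀.2 := by
              rw [Finset.sdiff_union_self_eq_union]
            rw [h6] at this
            exact this.trans (Finset.card_union_le _ _)
          have h7 := hpE.2.2
          omega
        have hsub : En.filter (fun p => C ∈ G p) ⊆ (SC C) ×ˢ ((IC C).powersetCard (d - 1)) := by
          intro p hp
          obtain ⟨g1, g2⟩ := Finset.mem_filter.1 hp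
          have g3 := (Finset.mem_filter.1 g1).1
          rw [Finset.mem_product, Finset.mem_powersetCard]
          exact ⟨hSC p g3 C (Finset.mem_filter.1 g2).1, hIC p g3 C (Finset.mem_filter.1 g2).1,
            ((hEm p).1 g3).2.2⟩
        refine (Finset.card_le_card hsub).trans ?_
        rw [Finset.card_product, Finset.card_powersetCard]
        exact Nat.mul_le_mul hSc
          ((Nat.choose_le_pow _ _).trans (Nat.pow_le_pow_left hIc _))
    calc ∑ C ∈ CC, (En.filter (fun p => C ∈ G p)).card ≤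
          ∑ _C ∈ CC, L₁ * (L₂ + d) ^ (d - 1) := Finset.sum_le_sum h3
      _ = CC.card * (L₁ * (L₂ + d) ^ (d - 1)) := by simp
      _ ≤ _ := Nat.mul_le_mul_right _ hCCc
  have hlow : En.card * (k - (s₁ + s₂) + 1) ≤ ∑ p ∈ En, (G p).card := by
    calc En.card * (k - (s₁ + s₂) + 1) = ∑ _p ∈ En, (k - (s₁ + s₂) + 1) := by simp
      _ ≤ _ := Finset.sum_le_sum hGc
  rw [← hEc]
  by_cases hbig : E.card ≤ 2 * (N + 1) ^ d
  · exact Or.inl hbig
  · right
    have h8 : E.card ≤ 2 * En.card := by omega
    calc E.card * (k - (s₁ + s₂) + 1) ≤ 2 * En.card * (k - (s₁ + s₂) + 1) :=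
          Nat.mul_le_mul_right _ h8
      _ = 2 * (En.card * (k - (s₁ + s₂) + 1)) := by ring
      _ ≤ 2 * ((N + 1) ^ d * (L₁ * (L₂ + d) ^ (d - 1))) :=
          Nat.mul_le_mul_left _ (hlow.trans hcount)

end Pool.Agent.Helper650_LocR

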