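import Mathlib

/-!
# Job LR2: the tree of light sets; minimal transversals

Plain words, TARGET 1.  `𝓖` is a family of sets with at most `r` elements, `Z₁` a fixed set.  Call a set
`G₀` (with at most `r` elements) heavy if some `G ∈ 𝓖` with `G₀ ⊆ G` is contained in `Z₁ ∪ G₀`, and
light otherwise.  By hypothesis, for a light `G₀` there are no `L` pairwise disjoint sets of the form
`G \ G₀` with `G₀ ⊆ G ∈ 𝓖`; so the union `M G₀` of a maximal pairwise disjoint family of such sets has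
at most `r L` elements (at most `L - 1` sets with at most `r` elements; all of them are nonempty, since
`G₀ ∈ 𝓖` would make `G₀` heavy), and all `G \ G₀` with `G₀ ⊆ G ∈ 𝓖` meet `M G₀`.  Build a tree: the
root is `∅`; the children of a light node `G₀` are the sets `insert z G₀`, `z ∈ M G₀ \ G₀`; heavy nodes
are leaves.  `H` is the set of the heavy nodes and `A` the union of all nodes.  Nodes of depth `r` which
are light have no children since `G₀ ⊆ G ∈ 𝓖` forces `G = G₀`.  Every `G ∈ 𝓖` contains a heavy node: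
starting at the root walk down inside `G`.  By induction on the depth `j = r - |G₀|` that is left, the
subtree below `G₀` adds fewer than `(r L + 1)^j` elements: `r L (1 + ((r L + 1)^j - 1)) <
(r L + 1)^(j+1)`.  A convenient induction: for all `j` and all `G₀` with `|G₀| + j = r` there are
`A, H` with `|A| < (r L + 1)^j`, all `G₁ ∈ H` satisfy `G₁ ⊆ A ∪ G₀`, `|G₁| ≤ r` and are heavy, and every
`G ∈ 𝓖` with `G₀ ⊆ G` contains some member of `H`.

TARGET 2.  Induction on `d`: for `d = 0` only the empty set is possible.  For `d ≥ 1` and `T` nonempty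
the family `H` is nonempty (every `v ∈ e` has its `G`); fix `G ∈ H`; every `e ∈ T` contains some
`v ∈ G`, and then `e.erase v` is counted for the family `{G' ∈ H | v ∉ G'}` and `d - 1`; so
`|T| ≤ Σ_{v ∈ G} r^(d-1) ≤ r^d`.

TARGET 3 and 4 are simple counting.
-/

namespace Pool.Agent.Helper650_LocR

/-- heavy sets -/
def q58_Heavy {n : ℕ} (𝓖 : Finset (Finset (Fin n))) (Z₁ G₀ : Finset (Fin n)) : Prop :=
  ∃ G ∈ 𝓖, G₀ ⊆ G ∧ G ⊆ Z₁ ∪ G₀

theorem q58_light {n r L : ℕ} (𝓖 : Finset (Finset (Fin n))) (hG : ∀ G ∈ 𝓖, G.card ≤ r)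
    (Z₁ G₀ : Finset (Fin n)) (hl : ¬ q58_Heavy 𝓖 Z₁ G₀)
    (h : ¬ ∃ P : Fin L → Finset (Fin n), (∀ i, ∃ G ∈ 𝓖, G₀ ⊆ G ∧ P i = G \ G₀) ∧
        ∀ i i', i ≠ i' → Disjoint (P i) (P i')) :
    ∃ M : Finset (Fin n), M.card ≤ r * L ∧ ∀ G ∈ 𝓖, G₀ ⊆ G → ∃ z ∈ M, z ∈ G ∧ z ∉ G₀ := by
  classical
  let 𝓐 : Finset (Finset (Fin n)) := (𝓖.filter fun G => G₀ ⊆ G).image fun G => G \ G₀
  let 𝓕 : Finset (Finset (Finset (Fin n))) :=
    𝓐.powerset.filter fun 𝓜 => ∀ A ∈ 𝓜, ∀ B ∈ 𝓜, A ≠ B → Disjoint A B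
  have hne : 𝓕.Nonempty := ⟨∅, by simp [𝓕]⟩
  obtain ⟨𝓜, h𝓜, hmax⟩ := Finset.exists_max_image 𝓕 Finset.card hne
  obtain ⟨h1, h2⟩ := Finset.mem_filter.1 h𝓜
  rw [Finset.mem_powerset] at h1
  have hcard : 𝓜.card ≤ L := by
    by_contra hc
    push Not at hc
    obtain ⟨𝓜', hs, hc'⟩ := Finset.exists_subset_card_eq hc.le
    apply h
    refine ⟨fun i => ((𝓜'.equivFinOfCardEq hc').symm i : Finset (Fin n)), ?_, ?_⟩
    · intro i
      have hm := h1 (hs ((𝓜'.equivFinOfCardEq hc').symm i).2)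
      obtain ⟨G, hG', he⟩ := Finset.mem_image.1 hm
      obtain ⟨a1, a2⟩ := Finset.mem_filter.1 hG'
      exact ⟨G, a1, a2, he.symm⟩
    · intro i i' hii
      apply h2 _ (hs ((𝓜'.equivFinOfCardEq hc').symm i).2) _
        (hs ((𝓜'.equivFinOfCardEq hc').symm i').2)
      intro he
      exact hii ((𝓜'.equivFinOfCardEq hc').symm.injective (Subtype.ext he))
  refine ⟨𝓜.biUnion id, ?_, ?_⟩
  · refine Finset.card_biUnion_le.trans ?_
    have h3 : ∀ A ∈ 𝓜, (id A : Finset (Fin n)).card ≤ r := by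
      intro A hA
      obtain ⟨G, hG', rfl⟩ := Finset.mem_image.1 (h1 hA)
      exact (Finset.card_le_card Finset.sdiff_subset).trans (hG G (Finset.mem_filter.1 hG').1)
    refine (Finset.sum_le_card_nsmul _ _ _ h3).trans ?_
    rw [smul_eq_mul, mul_comm]
    exact Nat.mul_le_mul_left r hcard
  · intro G hGG hsub
    by_contra hno
    push Not at hno
    have hdis : ∀ A ∈ 𝓜, Disjoint (G \ G₀) A := by
      intro A hA
      rw [Finset.disjoint_left]
      intro z hz hzA
      rw [Finset.mem_sdiff] at hz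
      exact hz.2 (hno z (Finset.mem_biUnion.2 ⟨A, hA, hzA⟩) hz.1)
    have hnon : (G \ G₀).Nonempty := by
      rw [Finset.nonempty_iff_ne_empty]
      intro he
      rw [Finset.sdiff_eq_empty_iff_subset] at he
      exact hl ⟨G, hGG, hsub, he.trans Finset.subset_union_right⟩
    have hnm : G \ G₀ ∉ 𝓜 := by
      intro hm
      obtain ⟨z, hz⟩ := hnon
      exact Finset.disjoint_left.1 (hdis _ hm) hz hz
    have hin : insert (G \ G₀) 𝓜 ∈ 𝓕 := by
      refine Finset.mem_filter.2 ⟨?_, ?_⟩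
      · rw [Finset.mem_powerset, Finset.insert_subset_iff]
        exact ⟨Finset.mem_image.2 ⟨G, Finset.mem_filter.2 ⟨hGG, hsub⟩, rfl⟩, h1⟩
      · intro A hA B hB hAB
        rw [Finset.mem_insert] at hA hB
        rcases hA with rfl | hA <;> rcases hB with rfl | hB
        · exact absurd rfl hAB
        · exact hdis B hB
        · exact (hdis A hA).symm
        · exact h2 A hA B hB hAB
    have := hmax _ hin
    rw [Finset.card_insert_of_notMem hnm] at this
    omega

theorem q58_tree {n r L : ℕ} (𝓖 : Finset (Finset (Fin n))) (hG : ∀ G ∈ 𝓖, G.card ≤ r)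
    (Z₁ : Finset (Fin n))
    (h : ∀ G₀ : Finset (Fin n), G₀.card ≤ r →
      (∃ G ∈ 𝓖, G₀ ⊆ G ∧ G ⊆ Z₁ ∪ G₀) ∨
      ¬ ∃ P : Fin L → Finset (Fin n), (∀ i, ∃ G ∈ 𝓖, G₀ ⊆ G ∧ P i = G \ G₀) ∧
        ∀ i i', i ≠ i' → Disjoint (P i) (P i')) (j : ℕ) :
    ∀ G₀ : Finset (Fin n), G₀.card + j = r →
    ∃ (A : Finset (Fin n)) (H : Finset (Finset (Fin n))), A.card < (r * L + 1) ^ j ∧
      (∀ G₁ ∈ H, G₁ ⊆ A ∪ G₀ ∧ G₁.card ≤ r ∧ q58_Heavy 𝓖 Z₁ G₁) ∧
      ∀ G ∈ 𝓖, G₀ ⊆ G → ∃ G₁ ∈ H, G₁ ⊆ G := by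
  classical
  induction j with
  | zero =>
    intro G₀ hc
    by_cases hh : q58_Heavy 𝓖 Z₁ G₀
    · refine ⟨∅, {G₀}, by simp, ?_, ?_⟩
      · intro G₁ h1
        rw [Finset.mem_singleton] at h1
        subst h1
        exact ⟨by simp, by omega, hh⟩
      · intro G _ hs
        exact ⟨G₀, Finset.mem_singleton_self _, hs⟩
    · refine ⟨∅, ∅, by simp, by simp, ?_⟩
      intro G hGG hs
      exfalso
      have h1 : G₀ = G := Finset.eq_of_subset_of_card_le hs (by have := hG G hGG; omega)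
      exact hh ⟨G, hGG, hs, by rw [← h1]; exact Finset.subset_union_right⟩
  | succ j ih =>
    intro G₀ hc
    by_cases hh : q58_Heavy 𝓖 Z₁ G₀
    · refine ⟨∅, {G₀}, by simp, ?_, ?_⟩
      · intro G₁ h1
        rw [Finset.mem_singleton] at h1
        subst h1
        exact ⟨by simp, by omega, hh⟩
      · intro G _ hs
        exact ⟨G₀, Finset.mem_singleton_self _, hs⟩
    · have hl := (h G₀ (by omega)).resolve_left hh
      obtain ⟨M, hM, hmeet⟩ := q58_light 𝓖 hG Z₁ G₀ hh hl
      have key : ∀ z ∈ M \ G₀, ∃ (A : Finset (Fin n)) (H : Finset (Finset (Fin n))),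
          A.card < (r * L + 1) ^ j ∧
          (∀ G₁ ∈ H, G₁ ⊆ A ∪ insert z G₀ ∧ G₁.card ≤ r ∧ q58_Heavy 𝓖 Z₁ G₁) ∧
          ∀ G ∈ 𝓖, insert z G₀ ⊆ G → ∃ G₁ ∈ H, G₁ ⊆ G := by
        intro z hz
        apply ih
        rw [Finset.card_insert_of_notMem (Finset.mem_sdiff.1 hz).2]
        omega
      choose! A H hA hH hcov using key
      refine ⟨(M \ G₀) ∪ (M \ G₀).biUnion A, (M \ G₀).biUnion H, ?_, ?_, ?_⟩
      · have h1 : ((M \ G₀) ∪ (M \ G₀).biUnion A).card ≤ (M \ G₀).card * (r * L + 1) ^ j := by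
          refine (Finset.card_union_le _ _).trans ?_
          have h2 : ∀ z ∈ M \ G₀, (A z).card ≤ (r * L + 1) ^ j - 1 := fun z hz => by
            have := hA z hz; omega
          have h3 := Finset.card_biUnion_le.trans (Finset.sum_le_card_nsmul _ _ _ h2)
          rw [smul_eq_mul] at h3
          have h4 : 1 ≤ (r * L + 1) ^ j := Nat.one_le_pow _ _ (by omega)
          obtain ⟨t, ht⟩ := Nat.exists_eq_add_of_le h4
          rw [ht] at h3 ⊢
          have h5 : 1 + t - 1 = t := by omega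
          rw [h5] at h3
          rw [mul_add, mul_one]
          omega
        have h2 : (M \ G₀).card ≤ r * L := (Finset.card_le_card Finset.sdiff_subset).trans hM
        have h3 : 0 < (r * L + 1) ^ j := pow_pos (by omega) _
        calc ((M \ G₀) ∪ (M \ G₀).biUnion A).card ≤ (M \ G₀).card * (r * L + 1) ^ j := h1
          _ ≤ r * L * (r * L + 1) ^ j := Nat.mul_le_mul_right _ h2
          _ < (r * L + 1) ^ (j + 1) := by rw [pow_succ]; nlinarith
      · intro G₁ h1
        obtain ⟨z, hz, hz'⟩ := Finset.mem_biUnion.1 h1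
        obtain ⟨a1, a2, a3⟩ := hH z hz G₁ hz'
        refine ⟨fun x hx => ?_, a2, a3⟩
        have := a1 hx
        simp only [Finset.mem_union, Finset.mem_insert, Finset.mem_biUnion] at this ⊢
        rcases this with h | rfl | h
        · exact Or.inl (Or.inr ⟨z, hz, h⟩)
        · exact Or.inl (Or.inl hz)
        · exact Or.inr h
      · intro G hGG hs
        obtain ⟨z, hzM, hzG, hz0⟩ := hmeet G hGG hs
        have hz : z ∈ M \ G₀ := Finset.mem_sdiff.2 ⟨hzM, hz0⟩
        obtain ⟨G₁, b1, b2⟩ := hcov z hz G hGG (Finset.insert_subset hzG hs)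
        exact ⟨G₁, Finset.mem_biUnion.2 ⟨z, hz, b1⟩, b2⟩

/-- TARGET 1. -/
theorem lr_tree (n r L : ℕ) (𝓖 : Finset (Finset (Fin n))) (hG : ∀ G ∈ 𝓖, G.card ≤ r)
    (Z₁ : Finset (Fin n))
    (h : ∀ G₀ : Finset (Fin n), G₀.card ≤ r →
      (∃ G ∈ 𝓖, G₀ ⊆ G ∧ G ⊆ Z₁ ∪ G₀) ∨
      ¬ ∃ P : Fin L → Finset (Fin n), (∀ i, ∃ G ∈ 𝓖, G₀ ⊆ G ∧ P i = G \ G₀) ∧
        ∀ i i', i ≠ i' → Disjoint (P i) (P i')) :
    ∃ (A : Finset (Fin n)) (H : Finset (Finset (Fin n))), A.card < (r * L + 1) ^ r ∧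
      (∀ G₀ ∈ H, G₀ ⊆ A ∧ G₀.card ≤ r ∧ ∃ G ∈ 𝓖, G₀ ⊆ G ∧ G ⊆ Z₁ ∪ G₀) ∧
      ∀ G ∈ 𝓖, ∃ G₀ ∈ H, G₀ ⊆ G := by
  obtain ⟨A, H, h1, h2, h3⟩ := q58_tree 𝓖 hG Z₁ h r ∅ (by simp)
  refine ⟨A, H, h1, fun G₀ hG₀ => ?_, fun G hGG => h3 G hGG (Finset.empty_subset _)⟩
  obtain ⟨a1, a2, a3⟩ := h2 G₀ hG₀
  rw [Finset.union_empty] at a1
  exact ⟨a1, a2, a3⟩

/-- TARGET 2. -/
theorem lr_minTrans (n r d : ℕ) (H : Finset (Finset (Fin n))) (hH : ∀ G ∈ H, G.card ≤ r)
    (T : Finset (Finset (Fin n)))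
    (hT : ∀ e ∈ T, e.card = d ∧ (∀ G ∈ H, ∃ v ∈ e, v ∈ G) ∧
      ∀ v ∈ e, ∃ G ∈ H, ∀ u ∈ e, u ∈ G → u = v) : T.card ≤ r ^ d := by
  classical
  induction d generalizing H T with
  | zero =>
    have h1 : T ⊆ {∅} := by
      intro e he
      rw [Finset.mem_singleton]
      exact Finset.card_eq_zero.1 (hT e he).1
    simpa using Finset.card_le_card h1
  | succ d ih =>
    rcases T.eq_empty_or_nonempty with rfl | ⟨e0, he0⟩
    · simp
    obtain ⟨hc0, -, h0⟩ := hT e0 he0
    obtain ⟨v0, hv0⟩ : e0.Nonempty := Finset.card_pos.1 (by omega)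
    obtain ⟨G, hG, -⟩ := h0 v0 hv0
    have hsub : T ⊆ G.biUnion fun v => T.filter fun e => v ∈ e := by
      intro e he
      obtain ⟨v, hv1, hv2⟩ := (hT e he).2.1 G hG
      exact Finset.mem_biUnion.2 ⟨v, hv2, Finset.mem_filter.2 ⟨he, hv1⟩⟩
    have key : ∀ v ∈ G, (T.filter fun e => v ∈ e).card ≤ r ^ d := by
      intro v _
      have h1 : (T.filter fun e => v ∈ e).card =
          ((T.filter fun e => v ∈ e).image fun e => e.erase v).card := by
        rw [Finset.card_image_of_injOn]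
        intro e he e' he' hee
        have a1 := (Finset.mem_filter.1 (Finset.mem_coe.1 he)).2
        have a2 := (Finset.mem_filter.1 (Finset.mem_coe.1 he')).2
        simp only at hee
        rw [← Finset.insert_erase a1, ← Finset.insert_erase a2, hee]
      rw [h1]
      apply ih (H.filter fun G' => v ∉ G') (fun G' hG' => hH G' (Finset.mem_filter.1 hG').1)
      intro f hf
      obtain ⟨e, he, rfl⟩ := Finset.mem_image.1 hf
      obtain ⟨heT, hve⟩ := Finset.mem_filter.1 he
      obtain ⟨b1, b2, b3⟩ := hT e heT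
      refine ⟨by rw [Finset.card_erase_of_mem hve]; omega, ?_, ?_⟩
      · intro G' hG'
        obtain ⟨c1, c2⟩ := Finset.mem_filter.1 hG'
        obtain ⟨u, hu1, hu2⟩ := b2 G' c1
        exact ⟨u, Finset.mem_erase.2 ⟨fun h => c2 (h ▸ hu2), hu1⟩, hu2⟩
      · intro u hu
        obtain ⟨hu1, hu2⟩ := Finset.mem_erase.1 hu
        obtain ⟨G', c1, c2⟩ := b3 u hu2
        refine ⟨G', Finset.mem_filter.2 ⟨c1, fun hv => hu1 (c2 v hve hv).symm⟩, ?_⟩
        intro u' hu' hu'G
        exact c2 u' (Finset.mem_erase.1 hu').2 hu'G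
    calc T.card ≤ (G.biUnion fun v => T.filter fun e => v ∈ e).card := Finset.card_le_card hsub
      _ ≤ ∑ v ∈ G, (T.filter fun e => v ∈ e).card := Finset.card_biUnion_le
      _ ≤ G.card • r ^ d := Finset.sum_le_card_nsmul _ _ _ key
      _ ≤ r * r ^ d := by rw [smul_eq_mul]; exact Nat.mul_le_mul_right _ (hH G hG)
      _ = r ^ (d + 1) := by ring

/-- TARGET 3.  (The number of sets of at most `d` elements.) -/
theorem lr_card_small (N d : ℕ) :
    (Finset.univ.filter (fun C : Finset (Fin N) => C.card ≤ d)).card ≤ (N + 1) ^ d := by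
  classical
  induction d with
  | zero =>
    have h1 : (Finset.univ.filter (fun C : Finset (Fin N) => C.card ≤ 0)) ⊆ {∅} := by
      intro C hC
      rw [Finset.mem_singleton]
      exact Finset.card_eq_zero.1 (Nat.le_zero.1 (Finset.mem_filter.1 hC).2)
    simpa using Finset.card_le_card h1
  | succ d ih =>
    have h1 : (Finset.univ.filter (fun C : Finset (Fin N) => C.card ≤ d + 1)) ⊆
        ((Finset.univ.filter (fun C : Finset (Fin N) => C.card ≤ d)) ×ˢ
          (Finset.univ : Finset (Option (Fin N)))).image fun p => p.1 ∪ p.2.toFinset := by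
      intro C hC
      have hc := (Finset.mem_filter.1 hC).2
      rw [Finset.mem_image]
      rcases C.eq_empty_or_nonempty with rfl | ⟨a, ha⟩
      · exact ⟨(∅, none), by simp, by simp⟩
      · refine ⟨(C.erase a, some a), ?_, ?_⟩
        · simp only [Finset.mem_product, Finset.mem_filter, Finset.mem_univ, true_and, and_true]
          rw [Finset.card_erase_of_mem ha]
          omega
        · simp only [Option.toFinset_some]
          rw [Finset.union_comm, ← Finset.insert_eq, Finset.insert_erase ha]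
    refine (Finset.card_le_card h1).trans (Finset.card_image_le.trans ?_)
    rw [Finset.card_product, Finset.card_univ, Fintype.card_option, Fintype.card_fin, pow_succ]
    exact Nat.mul_le_mul_right _ ih

/-- TARGET 4.  (Already the sets `insert a f` with `a < s`, `a ∉ Z₁`, `f` a set of `d - 1` elements
which are at least `s` and not in `Z₁` are enough.) -/
theorem lr_tests (n s d k₁ : ℕ) (hd : 1 ≤ d) (hs : s ≤ n) (Z₁ : Finset (Fin n))
    (hZ : Z₁.card ≤ k₁) :
    (s - k₁) * (n - s - k₁).choose (d - 1) ≤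
      ((Finset.univ.filter (fun e : Finset (Fin n) => e.card = d ∧ ∃ a ∈ e, a.val < s)).filter
        (fun e => Disjoint e Z₁)).card := by
  classical
  let S1 : Finset (Fin n) := (Finset.univ.filter fun a : Fin n => a.val < s) \ Z₁
  let S2 : Finset (Fin n) := (Finset.univ.filter fun a : Fin n => s ≤ a.val) \ Z₁
  have hS1 : s - k₁ ≤ S1.card := by
    have h1 : (Finset.univ.filter fun a : Fin n => a.val < s).card = s := by
      rw [Fin.card_filter_val_lt]
      omega
    have h2 := Finset.le_card_sdiff Z₁ (Finset.univ.filter fun a : Fin n => a.val < s)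
    rw [h1] at h2
    exact (Nat.sub_le_sub_left hZ s).trans h2
  have hS2 : n - s - k₁ ≤ S2.card := by
    have h1 : (Finset.univ.filter fun a : Fin n => s ≤ a.val).card = n - s := by
      have h3 : (Finset.univ.filter fun a : Fin n => s ≤ a.val) =
          Finset.univ \ (Finset.univ.filter fun a : Fin n => a.val < s) := by
        ext a
        simp
      rw [h3, Finset.card_sdiff_of_subset (Finset.filter_subset _ _), Finset.card_univ,
        Fintype.card_fin, Fin.card_filter_val_lt]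
      omega
    have h2 := Finset.le_card_sdiff Z₁ (Finset.univ.filter fun a : Fin n => s ≤ a.val)
    rw [h1] at h2
    exact (Nat.sub_le_sub_left hZ (n - s)).trans h2
  have hmem1 : ∀ a ∈ S1, a.val < s ∧ a ∉ Z₁ := by
    intro a ha
    obtain ⟨h1, h2⟩ := Finset.mem_sdiff.1 ha
    exact ⟨(Finset.mem_filter.1 h1).2, h2⟩
  have hmem2 : ∀ a ∈ S2, s ≤ a.val ∧ a ∉ Z₁ := by
    intro a ha
    obtain ⟨h1, h2⟩ := Finset.mem_sdiff.1 ha
    exact ⟨(Finset.mem_filter.1 h1).2, h2⟩
  have hsub : (S1 ×ˢ S2.powersetCard (d - 1)).image (fun p => insert p.1 p.2) ⊆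
      ((Finset.univ.filter (fun e : Finset (Fin n) => e.card = d ∧ ∃ a ∈ e, a.val < s)).filter
        (fun e => Disjoint e Z₁)) := by
    intro e he
    obtain ⟨⟨a, f⟩, hp, rfl⟩ := Finset.mem_image.1 he
    obtain ⟨ha, hf⟩ := Finset.mem_product.1 hp
    obtain ⟨hf1, hf2⟩ := Finset.mem_powersetCard.1 hf
    have haf : a ∉ f := fun h => by
      have b1 := (hmem2 a (hf1 h)).1
      have b2 := (hmem1 a ha).1
      omega
    simp only [Finset.mem_filter, Finset.mem_univ, true_and]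
    refine ⟨⟨?_, a, Finset.mem_insert_self _ _, (hmem1 a ha).1⟩, ?_⟩
    · rw [Finset.card_insert_of_notMem haf, hf2]
      omega
    · rw [Finset.disjoint_left]
      intro x hx
      rcases Finset.mem_insert.1 hx with rfl | hx
      · exact (hmem1 x ha).2
      · exact (hmem2 x (hf1 hx)).2
  have hinj : Set.InjOn (fun p : Fin n × Finset (Fin n) => insert p.1 p.2)
      (S1 ×ˢ S2.powersetCard (d - 1) : Finset (Fin n × Finset (Fin n))) := by
    rintro ⟨a, f⟩ hp ⟨a', f'⟩ hp' hee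
    obtain ⟨ha, hf⟩ := Finset.mem_product.1 (Finset.mem_coe.1 hp)
    obtain ⟨ha', hf'⟩ := Finset.mem_product.1 (Finset.mem_coe.1 hp')
    obtain ⟨hf1, -⟩ := Finset.mem_powersetCard.1 hf
    obtain ⟨hf1', -⟩ := Finset.mem_powersetCard.1 hf'
    simp only at hee ha ha' hf1 hf1'
    have haa : a = a' := by
      have h1 : a ∈ insert a' f' := by rw [← hee]; exact Finset.mem_insert_self _ _
      rcases Finset.mem_insert.1 h1 with h | h
      · exact h
      · have b1 := (hmem2 a (hf1' h)).1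
        have b2 := (hmem1 a ha).1
        omega
    subst haa
    have haf : a ∉ f := fun h => by
      have b1 := (hmem2 a (hf1 h)).1
      have b2 := (hmem1 a ha).1
      omega
    have haf' : a ∉ f' := fun h => by
      have b1 := (hmem2 a (hf1' h)).1
      have b2 := (hmem1 a ha).1
      omega
    have : f = f' := by
      rw [← Finset.erase_insert haf, hee, Finset.erase_insert haf']
    rw [this]
  calc (s - k₁) * (n - s - k₁).choose (d - 1) ≤ S1.card * S2.card.choose (d - 1) :=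
        Nat.mul_le_mul hS1 (Nat.choose_le_choose _ hS2)
    _ = (S1 ×ˢ S2.powersetCard (d - 1)).card := by
        rw [Finset.card_product, Finset.card_powersetCard]
    _ = ((S1 ×ˢ S2.powersetCard (d - 1)).image (fun p => insert p.1 p.2)).card :=
        (Finset.card_image_of_injOn hinj).symm
    _ ≤ _ := Finset.card_le_card hsub

end Pool.Agent.Helper650_LocR


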