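import Pool.Agent.Helper650_LocR.Rand
import Pool.Agent.Helper650_LocR.Tree

/-!
# The combinatorial core of a lower bound for local kernels
-/

namespace Pool.Agent.Helper650_LocR


theorem h223_count (n r : ℕ) :
    ((Finset.univ : Finset (Finset (Fin n))).filter (fun G => G.card ≤ r)).card ≤
      (n + 1) ^ r := by
  classical
  have h1 : ((Finset.univ : Finset (Finset (Fin n))).filter (fun G => G.card ≤ r)) ⊆
      (Finset.univ : Finset (Fin r → Option (Fin n))).image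
        (fun f => Finset.univ.filter (fun v => ∃ i, f i = some v)) := by
    intro G hG
    rw [Finset.mem_filter] at hG
    rw [Finset.mem_image]
    refine ⟨fun i => if h : i.1 < G.card then some (G.equivFin.symm ⟨i.1, h⟩).1 else none,
      Finset.mem_univ _, ?_⟩
    ext v
    rw [Finset.mem_filter]
    constructor
    · rintro ⟨-, i, hi⟩
      beta_reduce at hi
      split_ifs at hi with h
      rw [Option.some.injEq] at hi
      rw [← hi]
      exact (G.equivFin.symm ⟨i.1, h⟩).2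
    · intro hv
      refine ⟨Finset.mem_univ _, ?_⟩
      have h2 := (G.equivFin ⟨v, hv⟩).2
      refine ⟨⟨(G.equivFin ⟨v, hv⟩).1, h2.trans_le hG.2⟩, ?_⟩
      simp only
      rw [dif_pos h2]
      simp
  refine (Finset.card_le_card h1).trans (Finset.card_image_le.trans ?_)
  rw [Finset.card_univ, Fintype.card_fun, Fintype.card_option, Fintype.card_fin, Fintype.card_fin]

/-- TARGET 1. -/
theorem lr_core {ι : Type*} (n k r d K M L m q k₁ : ℕ) (hd : 1 ≤ d) (𝒞 : Finset ι)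
    (hK : 𝒞.card ≤ K) (𝒵 : ι → Finset (Fin n) → Prop) (𝓣 : Finset (Finset (Fin n)))
    (hT : ∀ e ∈ 𝓣, e.card = d)
    (h : ∀ Z : Finset (Fin n), Z.card = k → ∀ e ∈ 𝓣, Disjoint e Z →
      ∃ C ∈ 𝒞, 𝒵 C Z ∧ ∃ R, R ⊆ Z ∧ R.card + 1 ≤ r ∧
        ∀ v ∈ e, ∀ Z', 𝒵 C Z' → ¬ insert v R ⊆ Z')
    (hkd : k + d ≤ n) (hkm : k₁ + r * m ≤ k) (hq : 1 ≤ q) (hqk : 2 * n ≤ q * k₁)
    (hL : 2 * (K * (n + 1) ^ r) * (q ^ r - 1) ^ L < q ^ (r * L))
    (hM : ∀ Z₁ : Finset (Fin n), Z₁.card ≤ k₁ →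
      M ≤ (𝓣.filter (fun e => Disjoint e Z₁)).card) :
    M * (m + 1) ≤ K * (r ^ d * (m + 1) + (r * L + 1) ^ (r * d)) := by
  classical
  -- the families
  let 𝓖 : ι → Finset (Finset (Fin n)) := fun C =>
    Finset.univ.filter (fun G => G.card ≤ r ∧ ∀ Z', 𝒵 C Z' → ¬ G ⊆ Z')
  have mem𝓖 : ∀ C G, G ∈ 𝓖 C ↔ G.card ≤ r ∧ ∀ Z', 𝒵 C Z' → ¬ G ⊆ Z' := by
    intro C G
    simp only [𝓖, Finset.mem_filter, Finset.mem_univ, true_and]
  clear_value 𝓖
  let Good : ι × Finset (Fin n) → (Fin L → Finset (Fin n)) → Prop := fun p P =>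
    (∀ i, ∃ G ∈ 𝓖 p.1, p.2 ⊆ G ∧ P i = G \ p.2) ∧ ∀ i i', i ≠ i' → Disjoint (P i) (P i')
  let J : Finset (ι × Finset (Fin n)) :=
    (𝒞 ×ˢ (Finset.univ : Finset (Finset (Fin n))).filter (fun G => G.card ≤ r)).filter
      (fun p => ∃ P, Good p P)
  have hJcard : J.card ≤ K * (n + 1) ^ r := by
    refine (Finset.card_filter_le _ _).trans ?_
    rw [Finset.card_product]
    exact Nat.mul_le_mul hK (h223_count n r)
  let P : ι × Finset (Fin n) → Fin L → Finset (Fin n) := fun p =>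
    if h : ∃ P, Good p P then h.choose else fun _ => ∅
  have hP : ∀ p ∈ J, Good p (P p) := by
    intro p hp
    have h1 : ∃ P, Good p P := (Finset.mem_filter.1 hp).2
    have h2 : P p = h1.choose := dif_pos h1
    rw [h2]
    exact h1.choose_spec
  obtain ⟨Z₁, hZ₁, hZJ⟩ := lr_random n k₁ q r L hqk hq J P
    (by
      intro j hj i
      obtain ⟨G, hG, h1, h2⟩ := (hP j hj).1 i
      rw [h2]
      exact (Finset.card_le_card Finset.sdiff_subset).trans ((mem𝓖 _ _).1 hG).1)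
    (fun j hj => (hP j hj).2)
    (lt_of_le_of_lt (Nat.mul_le_mul_right _ (Nat.mul_le_mul_left _ hJcard)) hL)
  -- the trees
  have htree : ∀ C ∈ 𝒞, ∃ (A : Finset (Fin n)) (H : Finset (Finset (Fin n))),
      A.card < (r * L + 1) ^ r ∧
      (∀ G₀ ∈ H, G₀ ⊆ A ∧ G₀.card ≤ r ∧ ∃ G ∈ 𝓖 C, G₀ ⊆ G ∧ G ⊆ Z₁ ∪ G₀) ∧
      ∀ G ∈ 𝓖 C, ∃ G₀ ∈ H, G₀ ⊆ G := by
    intro C hC
    refine lr_tree n r L (𝓖 C) (fun G hG => ((mem𝓖 _ _).1 hG).1) Z₁ ?_
    intro G₀ hG₀
    by_cases hj : (C, G₀) ∈ J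
    · left
      obtain ⟨i, hi⟩ := hZJ _ hj
      obtain ⟨G, hG, h1, h2⟩ := (hP _ hj).1 i
      refine ⟨G, hG, h1, ?_⟩
      rw [h2] at hi
      intro v hv
      rw [Finset.mem_union]
      by_cases hv0 : v ∈ G₀
      · exact Or.inr hv0
      · exact Or.inl (hi (Finset.mem_sdiff.2 ⟨hv, hv0⟩))
    · right
      intro h1
      exact hj (Finset.mem_filter.2 ⟨Finset.mem_product.2 ⟨hC, Finset.mem_filter.2
        ⟨Finset.mem_univ _, hG₀⟩⟩, h1⟩)
  choose! A H hA hH1 hH2 using htree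
  let MT : ι → Finset (Fin n) → Prop := fun C e =>
    (∀ G ∈ H C, ∃ v ∈ e, v ∈ G) ∧ ∀ v ∈ e, ∃ G ∈ H C, ∀ u ∈ e, u ∈ G → u = v
  let T₁ := 𝓣.filter (fun e => Disjoint e Z₁)
  have hT₁ : M ≤ T₁.card := hM Z₁ hZ₁
  -- the good element
  have hgood : (∃ e ∈ T₁, (∀ C ∈ 𝒞, ¬ MT C e) ∧
      (𝒞.filter (fun C => e ⊆ A C)).card ≤ m) ∨
      M * (m + 1) ≤ K * (r ^ d * (m + 1) + (r * L + 1) ^ (r * d)) := by
    by_contra hcon
    rw [not_or] at hcon
    obtain ⟨hcon1, hcon2⟩ := hcon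
    apply hcon2
    push Not at hcon1
    let T₂ := T₁.filter (fun e => m + 1 ≤ (𝒞.filter (fun C => e ⊆ A C)).card)
    have h1 : T₁ ⊆ (𝒞.biUnion fun C => T₁.filter (fun e => MT C e)) ∪ T₂ := by
      intro e he
      rw [Finset.mem_union]
      by_cases h2 : ∃ C ∈ 𝒞, MT C e
      · obtain ⟨C, hC, h2⟩ := h2
        exact Or.inl (Finset.mem_biUnion.2 ⟨C, hC, Finset.mem_filter.2 ⟨he, h2⟩⟩)
      · push Not at h2
        exact Or.inr (Finset.mem_filter.2 ⟨he, hcon1 e he h2⟩)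
    have h2 : (𝒞.biUnion fun C => T₁.filter (fun e => MT C e)).card ≤ K * r ^ d := by
      refine Finset.card_biUnion_le.trans ?_
      refine (Finset.sum_le_card_nsmul _ _ (r ^ d) ?_).trans ?_
      · intro C hC
        refine lr_minTrans n r d (H C) (fun G hG => (hH1 C hC G hG).2.1) _ ?_
        intro e he
        rw [Finset.mem_filter] at he
        exact ⟨hT e (Finset.mem_filter.1 he.1).1, he.2⟩
      · rw [smul_eq_mul]
        exact Nat.mul_le_mul_right _ hK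
    have h3 : T₂.card * (m + 1) ≤ K * (r * L + 1) ^ (r * d) := by
      have h4 : T₂.card * (m + 1) ≤ ∑ e ∈ T₂, (𝒞.filter (fun C => e ⊆ A C)).card := by
        rw [← smul_eq_mul]
        exact Finset.card_nsmul_le_sum _ _ _ fun e he => (Finset.mem_filter.1 he).2
      have h5 : ∑ e ∈ T₂, (𝒞.filter (fun C => e ⊆ A C)).card =
          ∑ C ∈ 𝒞, (T₂.filter (fun e => e ⊆ A C)).card :=
        Finset.sum_card_bipartiteAbove_eq_sum_card_bipartiteBelow (fun e C => e ⊆ A C)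
      refine h4.trans ?_
      rw [h5]
      refine (Finset.sum_le_card_nsmul _ _ ((r * L + 1) ^ (r * d)) ?_).trans ?_
      · intro C hC
        have h6 : T₂.filter (fun e => e ⊆ A C) ⊆ (A C).powersetCard d := by
          intro e he
          rw [Finset.mem_filter] at he
          rw [Finset.mem_powersetCard]
          exact ⟨he.2, hT e (Finset.mem_filter.1 (Finset.mem_filter.1 he.1).1).1⟩
        refine (Finset.card_le_card h6).trans ?_
        rw [Finset.card_powersetCard, pow_mul]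
        exact (Nat.choose_le_pow _ _).trans (Nat.pow_le_pow_left (hA C hC).le _)
      · rw [smul_eq_mul]
        exact Nat.mul_le_mul_right _ hK
    have h4 : T₁.card ≤ K * r ^ d + T₂.card :=
      (Finset.card_le_card h1).trans ((Finset.card_union_le _ _).trans
        (Nat.add_le_add_right h2 _))
    calc M * (m + 1) ≤ (K * r ^ d + T₂.card) * (m + 1) :=
          Nat.mul_le_mul_right _ (hT₁.trans h4)
      _ = K * r ^ d * (m + 1) + T₂.card * (m + 1) := by ring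
      _ ≤ K * r ^ d * (m + 1) + K * (r * L + 1) ^ (r * d) := Nat.add_le_add_left h3 _
      _ = K * (r ^ d * (m + 1) + (r * L + 1) ^ (r * d)) := by ring
  rcases hgood with ⟨e, he, heMT, herel⟩ | hgood
  swap
  · exact hgood
  exfalso
  obtain ⟨he𝓣, heZ₁⟩ := Finset.mem_filter.1 he
  -- the set `Z`
  let g : ι → Finset (Fin n) := fun C =>
    if h : ∃ G ∈ H C, Disjoint e G then h.choose else ∅
  have hg1 : ∀ C, Disjoint e (g C) := by
    intro C
    by_cases h1 : ∃ G ∈ H C, Disjoint e G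
    · have h2 : g C = h1.choose := dif_pos h1
      rw [h2]
      exact h1.choose_spec.2
    · have h2 : g C = ∅ := dif_neg h1
      rw [h2]
      exact Finset.disjoint_empty_right _
  have hg2 : ∀ C ∈ 𝒞, (g C).card ≤ r := by
    intro C hC
    by_cases h1 : ∃ G ∈ H C, Disjoint e G
    · have h2 : g C = h1.choose := dif_pos h1
      rw [h2]
      exact (hH1 C hC _ h1.choose_spec.1).2.1
    · have h2 : g C = ∅ := dif_neg h1
      rw [h2]
      exact Nat.zero_le _
  let Z₀ : Finset (Fin n) := Z₁ ∪ (𝒞.filter (fun C => e ⊆ A C)).biUnion g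
  have hZ₀ : Z₀.card ≤ k := by
    refine (Finset.card_union_le _ _).trans (le_trans ?_ hkm)
    refine Nat.add_le_add hZ₁ (Finset.card_biUnion_le.trans ?_)
    refine (Finset.sum_le_card_nsmul _ _ r ?_).trans ?_
    · intro C hC
      exact hg2 C (Finset.mem_filter.1 hC).1
    · rw [smul_eq_mul, mul_comm]
      exact Nat.mul_le_mul_left _ herel
  have hZ₀e : Z₀ ⊆ eᶜ := by
    intro v hv
    rw [Finset.mem_compl]
    intro hve
    rcases Finset.mem_union.1 hv with h1 | h1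
    · exact Finset.disjoint_left.1 heZ₁ hve h1
    · obtain ⟨C, -, h2⟩ := Finset.mem_biUnion.1 h1
      exact Finset.disjoint_left.1 (hg1 C) hve h2
  have hec : k ≤ (eᶜ).card := by
    rw [Finset.card_compl, Fintype.card_fin, hT e he𝓣]
    omega
  obtain ⟨Z, hZ₀Z, hZe, hZk⟩ := Finset.exists_subsuperset_card_eq hZ₀e hZ₀ hec
  have heZ : Disjoint e Z := by
    rw [Finset.disjoint_left]
    intro v hv hvZ
    exact Finset.mem_compl.1 (hZe hvZ) hv
  obtain ⟨C, hC, hCZ, R, hRZ, hRr, hR⟩ := h Z hZk e he𝓣 heZ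
  have hc : ∀ G₀ ∈ H C, ¬ G₀ ⊆ Z := by
    intro G₀ hG₀ hsub
    obtain ⟨-, -, G, hG, h1, h2⟩ := hH1 C hC G₀ hG₀
    refine ((mem𝓖 _ _).1 hG).2 Z hCZ (h2.trans ?_)
    exact Finset.union_subset (Finset.subset_union_left.trans hZ₀Z) hsub
  have hd' : ∀ v ∈ e, ∃ G ∈ H C, v ∈ G ∧ G ⊆ insert v R := by
    intro v hv
    have h1 : insert v R ∈ 𝓖 C := by
      rw [mem𝓖]
      exact ⟨(Finset.card_insert_le _ _).trans hRr, hR v hv⟩
    obtain ⟨G, hG, h2⟩ := hH2 C hC _ h1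
    refine ⟨G, hG, ?_, h2⟩
    by_contra hvG
    apply hc G hG
    intro u hu
    rcases Finset.mem_insert.1 (h2 hu) with rfl | h3
    · exact absurd hu hvG
    · exact hRZ h3
  have heA : e ⊆ A C := by
    intro v hv
    obtain ⟨G, hG, hvG, -⟩ := hd' v hv
    exact (hH1 C hC G hG).1 hvG
  have hCrel : C ∈ 𝒞.filter (fun C => e ⊆ A C) := Finset.mem_filter.2 ⟨hC, heA⟩
  apply heMT C hC
  refine ⟨?_, ?_⟩
  · intro G hG
    by_contra hno
    have h1 : ∃ G ∈ H C, Disjoint e G := by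
      refine ⟨G, hG, Finset.disjoint_left.2 fun v hv hvG => hno ⟨v, hv, hvG⟩⟩
    have h2 : g C = h1.choose := dif_pos h1
    have h3 : g C ∈ H C := by
      rw [h2]
      exact h1.choose_spec.1
    apply hc _ h3
    refine (Finset.Subset.trans ?_ Finset.subset_union_right).trans hZ₀Z
    exact Finset.subset_biUnion_of_mem g hCrel
  · intro v hv
    obtain ⟨G, hG, hvG, hsub⟩ := hd' v hv
    refine ⟨G, hG, fun u hu huG => ?_⟩
    rcases Finset.mem_insert.1 (hsub huG) with h1 | h1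
    · exact h1
    · exact absurd (hRZ h1) (Finset.disjoint_left.1 heZ hu)

end Pool.Agent.Helper650_LocR


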