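import Mathlib

/-!
# Local kernels and solution encodings for hitting sets: definitions
-/

namespace Pool.Agent.Helper650_LocR

/-- `E` is a `d`-hypergraph with vertex set `Fin n`: its edges are nonempty sets of at most `d`
vertices. -/
def IsHg (d n : ℕ) (E : Finset (Finset (Fin n))) : Prop := ∀ e ∈ E, e.Nonempty ∧ e.card ≤ d

/-- The set `S` meets every member of `E`. -/
def Meets {n : ℕ} (S : Finset (Fin n)) (E : Finset (Finset (Fin n))) : Prop :=
  ∀ e ∈ E, ∃ v ∈ e, v ∈ S

/-- Every edge of `E` contains one of the first `s` vertices. -/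
def Anchored {n : ℕ} (s : ℕ) (E : Finset (Finset (Fin n))) : Prop :=
  ∀ e ∈ E, ∃ v ∈ e, v.val < s

/-- The hypergraph caused by `E`: the union of the `F D` for all sets `D` of at most `r` edges of
`E`. -/
def caused {n N : ℕ} (r : ℕ) (F : Finset (Finset (Fin n)) → Finset (Finset (Fin N)))
    (E : Finset (Finset (Fin n))) : Finset (Finset (Fin N)) :=
  (E.powerset.filter (fun D => D.card ≤ r)).biUnion F

/-- `r`-local kernels with `N` vertices for the `d`-hypergraphs with vertex set `Fin n` all of whose
edges contain one of the first `s` vertices, and parameter `k`: a fixed parameter `k'` and for every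
set `D` of edges a `d`-hypergraph `F D` with vertex set `Fin N` such that every such hypergraph `E`
can be replaced by the union of the `F D`, `D ⊆ E`, `|D| ≤ r`. -/
def LocalKernel (d n s r k N : ℕ) : Prop :=
  ∃ (k' : ℕ) (F : Finset (Finset (Fin n)) → Finset (Finset (Fin N))),
    (∀ D, IsHg d N (F D)) ∧
    ∀ E : Finset (Finset (Fin n)), IsHg d n E → Anchored s E →
      ((∃ S, S.card ≤ k ∧ Meets S E) ↔ ∃ T, T.card ≤ k' ∧ Meets T (caused r F E))

/-- Solution encodings with `N` vertices: a map `K` from hypergraphs to hypergraphs and a map `Y` from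
sets of vertices to sets of vertices such that for every hypergraph `E` all of whose edges contain one
of the first `s` vertices, a set `S` of `k` vertices meets every edge of `E` iff `Y S` meets every edge
of `K E`. -/
def SolutionEncoding (d n s k N : ℕ) : Prop :=
  ∃ (Y : Finset (Fin n) → Finset (Fin N))
    (K : Finset (Finset (Fin n)) → Finset (Finset (Fin N))),
    (∀ E, IsHg d n E → IsHg d N (K E)) ∧
    ∀ E, IsHg d n E → Anchored s E → ∀ S : Finset (Fin n), S.card = k →
      (Meets S E ↔ Meets (Y S) (K E))

end Pool.Agent.Helper650_LocR
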