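import Pool.Agent.Helper650_LocR.Defs

/-!
# Edge-local kernels give solution encodings
-/

namespace Pool.Agent.Helper650_LocR

/-- Edge-local kernels in another form: a fixed hypergraph `B` and for every edge `e` a hypergraph
`F e`. -/
def EdgeKernel (d n s k N : ℕ) : Prop :=
  ∃ (k' : ℕ) (B : Finset (Finset (Fin N))) (F : Finset (Fin n) → Finset (Finset (Fin N))),
    IsHg d N B ∧ (∀ e, IsHg d N (F e)) ∧
    ∀ E : Finset (Finset (Fin n)), IsHg d n E → Anchored s E →
      ((∃ S, S.card ≤ k ∧ Meets S E) ↔ ∃ T, T.card ≤ k' ∧ Meets T (B ∪ E.biUnion F))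

/-- TARGET 1. -/
theorem la_local_solution {d n s k N : ℕ} (hd : 2 ≤ d) (hks : k < s) (hsn : s ≤ n)
    (h : EdgeKernel d n s k N) : SolutionEncoding d n s k N := by
  classical
  obtain ⟨k', B, F, hB, hF, hE⟩ := h
  let ES : Finset (Fin n) → Finset (Finset (Fin n)) := fun S =>
    Finset.univ.filter (fun e => e.Nonempty ∧ e.card ≤ d ∧ (∃ v ∈ e, v ∈ S) ∧ ∃ v ∈ e, v.val < s)
  have hES : ∀ S, IsHg d n (ES S) := by
    intro S e he
    have := (Finset.mem_filter.1 he).2
    exact ⟨this.1, this.2.1⟩
  have hESa : ∀ S, Anchored s (ES S) := fun S e he => (Finset.mem_filter.1 he).2.2.2.2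
  have hmeet : ∀ S, Meets S (ES S) := fun S e he => (Finset.mem_filter.1 he).2.2.2.1
  have hY : ∀ S : Finset (Fin n), ∃ T : Finset (Fin N),
      S.card ≤ k → T.card ≤ k' ∧ Meets T (B ∪ (ES S).biUnion F) := by
    intro S
    by_cases hS : S.card ≤ k
    · obtain ⟨T, hT⟩ := (hE (ES S) (hES S) (hESa S)).1 ⟨S, hS, hmeet S⟩
      exact ⟨T, fun _ => hT⟩
    · exact ⟨∅, fun h => absurd h hS⟩
  choose Y hY using hY
  refine ⟨Y, fun E => B ∪ E.biUnion F, ?_, ?_⟩
  · intro E _ e he
    rcases Finset.mem_union.1 he with h | h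
    · exact hB e h
    · obtain ⟨a, -, ha⟩ := Finset.mem_biUnion.1 h
      exact hF a e ha
  · intro E hEh hEa S hS
    constructor
    · intro hSE e he
      obtain ⟨-, hT⟩ := hY S hS.le
      apply hT e
      rcases Finset.mem_union.1 he with h | h
      · exact Finset.mem_union_left _ h
      · obtain ⟨a, ha, hae⟩ := Finset.mem_biUnion.1 h
        refine Finset.mem_union_right _ (Finset.mem_biUnion.2 ⟨a, ?_, hae⟩)
        exact Finset.mem_filter.2 ⟨Finset.mem_univ _, (hEh a ha).1, (hEh a ha).2, hSE a ha, hEa a ha⟩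
    · intro hYE
      obtain ⟨hTc, hT⟩ := hY S hS.le
      have hU : IsHg d n (E ∪ ES S) := by
        intro e he
        rcases Finset.mem_union.1 he with h | h
        · exact hEh e h
        · exact hES S e h
      have hUa : Anchored s (E ∪ ES S) := by
        intro e he
        rcases Finset.mem_union.1 he with h | h
        · exact hEa e h
        · exact hESa S e h
      obtain ⟨S', hS'c, hS'⟩ := (hE (E ∪ ES S) hU hUa).2 ⟨Y S, hTc, by
        intro e he
        rcases Finset.mem_union.1 he with h | h
        · exact hT e (Finset.mem_union_left _ h)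
        · obtain ⟨a, ha, hae⟩ := Finset.mem_biUnion.1 h
          rcases Finset.mem_union.1 ha with h' | h'
          · exact hYE e (Finset.mem_union_right _ (Finset.mem_biUnion.2 ⟨a, h', hae⟩))
          · exact hT e (Finset.mem_union_right _ (Finset.mem_biUnion.2 ⟨a, h', hae⟩))⟩
      have hsub : S ⊆ S' := by
        intro x hx
        by_contra hxS'
        -- all first vertices are in S'
        have hall : ∀ a : Fin n, a.val < s → a ∈ S' := by
          intro a ha
          have hmem : ({a, x} : Finset (Fin n)) ∈ E ∪ ES S := by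
            refine Finset.mem_union_right _ (Finset.mem_filter.2 ⟨Finset.mem_univ _, ⟨a, by simp⟩,
              ?_, ⟨x, by simp, hx⟩, ⟨a, by simp, ha⟩⟩)
            exact (Finset.card_le_two).trans hd
          obtain ⟨w, hw, hwS⟩ := hS' _ hmem
          rw [Finset.mem_insert, Finset.mem_singleton] at hw
          rcases hw with rfl | rfl
          · exact hwS
          · exact absurd hwS hxS'
        have hcard : s ≤ S'.card := by
          let f : Fin s → Fin n := fun i => ⟨i.val, lt_of_lt_of_le i.isLt hsn⟩
          have hf : Function.Injective f := by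
            intro i j hij
            have := congrArg Fin.val hij
            exact Fin.ext this
          have h1 : (Finset.univ.image f) ⊆ S' := by
            intro y hy
            obtain ⟨i, -, rfl⟩ := Finset.mem_image.1 hy
            exact hall _ i.isLt
          have h2 := Finset.card_le_card h1
          rw [Finset.card_image_of_injective _ hf, Finset.card_univ, Fintype.card_fin] at h2
          exact h2
        omega
      have heq : S = S' := Finset.eq_of_subset_of_card_le hsub (by omega)
      intro e he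
      rw [heq]
      exact hS' e (Finset.mem_union_left _ he)

/-- TARGET 2. -/
theorem la_solution_core {d n s k N : ℕ} (hd : 1 ≤ d) (h : SolutionEncoding d n s k N) :
    ∃ Cl : Finset (Fin n) → Finset (Finset (Fin N)), (∀ e, ∀ C ∈ Cl e, C.card ≤ d) ∧
      ∀ (Z f : Finset (Fin n)) (a : Fin n), Z.card = k → a.val < s → f.card = d - 1 →
      (∀ v ∈ f, s ≤ v.val) → Disjoint (insert a f) Z →
      ∃ C ∈ Cl (insert a f), ∀ (f' : Finset (Fin n)) (a' : Fin n), a'.val < s →
        f'.card = d - 1 → (∀ v ∈ f', s ≤ v.val) → C ∈ Cl (insert a' f') →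
        Disjoint (insert a' f') Z := by
  classical
  obtain ⟨Y, K, hK1, hK⟩ := h
  refine ⟨fun e => if e.Nonempty ∧ e.card ≤ d then K {e} else ∅, ?_, ?_⟩
  · intro e C hC
    simp only at hC
    split_ifs at hC with he
    · exact (hK1 {e} (by intro a ha; rw [Finset.mem_singleton] at ha; rw [ha]; exact he) C hC).2
    · simp at hC
  · intro Z f a hZ ha hf hfs hdis
    have hg : ∀ (g : Finset (Fin n)) (b : Fin n), g.card = d - 1 →
        ((insert b g).Nonempty ∧ (insert b g).card ≤ d) := by
      intro g b hgc
      refine ⟨⟨b, by simp⟩, ?_⟩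
      have := Finset.card_insert_le b g
      omega
    have hsing : ∀ (g : Finset (Fin n)) (b : Fin n), g.card = d - 1 → IsHg d n {insert b g} := by
      intro g b hgc c hc
      rw [Finset.mem_singleton] at hc
      rw [hc]; exact hg g b hgc
    have hanch : ∀ (g : Finset (Fin n)) (b : Fin n), b.val < s →
        Anchored s ({insert b g} : Finset (Finset (Fin n))) := by
      intro g b hb c hc
      rw [Finset.mem_singleton] at hc
      rw [hc]
      exact ⟨b, by simp, hb⟩
    have h1 : ¬ Meets Z {insert a f} := by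
      intro hm
      obtain ⟨v, hv, hvZ⟩ := hm (insert a f) (by simp)
      exact Finset.disjoint_left.1 hdis hv hvZ
    rw [hK {insert a f} (hsing f a hf) (hanch f a ha) Z hZ] at h1
    unfold Meets at h1
    push Not at h1
    obtain ⟨C, hC, hCY⟩ := h1
    refine ⟨C, by simp only; rw [if_pos (hg f a hf)]; exact hC, ?_⟩
    intro f' a' ha' hf' hfs' hCe'
    simp only at hCe'
    rw [if_pos (hg f' a' hf')] at hCe'
    by_contra hnd
    have h2 : Meets Z {insert a' f'} := by
      intro c hc
      rw [Finset.mem_singleton] at hc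
      rw [hc]
      rw [Finset.not_disjoint_iff] at hnd
      exact hnd
    rw [hK {insert a' f'} (hsing f' a' hf') (hanch f' a' ha') Z hZ] at h2
    obtain ⟨v, hv, hvY⟩ := h2 C hCe'
    exact hCY v hv hvY

/-- TARGET 3. -/
theorem la_solution_pos {d n s k N : ℕ} (hd : 1 ≤ d) (hk : k < n) (hs : 0 < s)
    (h : SolutionEncoding d n s k N) : 1 ≤ N := by
  classical
  obtain ⟨Y, K, hK1, hK⟩ := h
  by_contra hN
  have hN0 : N = 0 := by omega
  subst hN0
  let v : Fin n := ⟨0, by omega⟩
  obtain ⟨S, hSsub, hS⟩ : ∃ S : Finset (Fin n), S ⊆ Finset.univ.erase v ∧ S.card = k := by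
    apply Finset.exists_subset_card_eq
    rw [Finset.card_erase_of_mem (Finset.mem_univ v), Finset.card_univ, Fintype.card_fin]
    omega
  have hv : v ∉ S := by
    intro hv
    have := hSsub hv
    simp at this
  have hg : IsHg d n {{v}} := by
    intro a ha
    rw [Finset.mem_singleton] at ha
    rw [ha]
    exact ⟨⟨v, by simp⟩, by simpa using hd⟩
  have hga : Anchored s ({{v}} : Finset (Finset (Fin n))) := by
    intro a ha
    rw [Finset.mem_singleton] at ha
    rw [ha]
    exact ⟨v, by simp, hs⟩
  have h1 : Meets (Y S) (K {{v}}) := by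
    intro a ha
    obtain ⟨x, -⟩ := (hK1 _ hg a ha).1
    exact x.elim0
  rw [← hK _ hg hga S hS] at h1
  obtain ⟨w, hw, hwS⟩ := h1 {v} (by simp)
  rw [Finset.mem_singleton] at hw
  rw [hw] at hwS
  exact hv hwS

/-- TARGET 4. -/
theorem la_local_id (d n s k : ℕ) : EdgeKernel d n s k n := by
  classical
  refine ⟨k, ∅, fun e => if e.Nonempty ∧ e.card ≤ d then {e} else ∅, by intro e he; simp at he,
    ?_, ?_⟩
  · intro e a ha
    simp only at ha
    by_cases he : e.Nonempty ∧ e.card ≤ d
    · rw [if_pos he, Finset.mem_singleton] at ha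
      rw [ha]; exact he
    · rw [if_neg he] at ha
      simp at ha
  · intro E hE _
    have h1 : (∅ ∪ E.biUnion fun e => if e.Nonempty ∧ e.card ≤ d then
        ({e} : Finset (Finset (Fin n))) else ∅) = E := by
      ext a
      rw [Finset.empty_union, Finset.mem_biUnion]
      constructor
      · rintro ⟨e, he, ha⟩
        rw [if_pos (hE e he), Finset.mem_singleton] at ha
        rw [ha]; exact he
      · intro ha
        exact ⟨a, ha, by rw [if_pos (hE a ha)]; simp⟩
    rw [h1]

/-- TARGET 5. -/
theorem la_local_anti {d n s s' k N : ℕ} (hs : s ≤ s') (h : EdgeKernel d n s' k N) :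
    EdgeKernel d n s k N := by
  obtain ⟨k', B, F, hB, hF, hE⟩ := h
  refine ⟨k', B, F, hB, hF, ?_⟩
  intro E hEh hEa
  apply hE E hEh
  intro e he
  obtain ⟨v, hv, hvs⟩ := hEa e he
  exact ⟨v, hv, lt_of_lt_of_le hvs hs⟩

end Pool.Agent.Helper650_LocR

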