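import Pool.Agent.Helper650_LocR.Edge

/-!
# Local kernels: the hypothesis of the lower bound, and simple facts
-/

namespace Pool.Agent.Helper650_LocR

theorem h629_card_lt {n s : ℕ} (hsn : s ≤ n) :
    (Finset.univ.filter (fun a : Fin n => a.val < s)).card = s := by
  have h1 : Finset.univ.filter (fun a : Fin n => a.val < s) =
      Finset.univ.map (Fin.castLEEmb hsn) := by
    ext a
    simp only [Finset.mem_filter, Finset.mem_univ, true_and, Finset.mem_map]
    constructor
    · intro h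
      exact ⟨⟨a.val, h⟩, Fin.ext rfl⟩
    · rintro ⟨b, rfl⟩
      exact b.2
  rw [h1, Finset.card_map, Finset.card_univ, Fintype.card_fin]

theorem h629_mem_caused {n N r : ℕ} {F : Finset (Finset (Fin n)) → Finset (Finset (Fin N))}
    (E : Finset (Finset (Fin n))) (C : Finset (Fin N)) : C ∈ caused r F E ↔
      ∃ D, D ⊆ E ∧ D.card ≤ r ∧ C ∈ F D := by
  simp only [caused, Finset.mem_biUnion, Finset.mem_filter, Finset.mem_powerset]
  constructor
  · rintro ⟨D, ⟨h1, h2⟩, h3⟩
    exact ⟨D, h1, h2, h3⟩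
  · rintro ⟨D, h1, h2, h3⟩
    exact ⟨D, ⟨h1, h2⟩, h3⟩

/-- TARGET 1. -/
theorem lr_local_core {d n s r k N : ℕ} (hd : 2 ≤ d) (hks : k < s) (hsn : s ≤ n)
    (h : LocalKernel d n s r k N) :
    ∃ 𝒵 : Finset (Fin N) → Finset (Fin n) → Prop,
      ∀ Z : Finset (Fin n), Z.card = k → ∀ e : Finset (Fin n), e.card = d → (∃ a ∈ e, a.val < s) →
        Disjoint e Z → ∃ C : Finset (Fin N), C.card ≤ d ∧ 𝒵 C Z ∧
          ∃ R, R ⊆ Z ∧ R.card + 1 ≤ r ∧ ∀ v ∈ e, ∀ Z', 𝒵 C Z' → ¬ insert v R ⊆ Z' := by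
  classical
  obtain ⟨k', F, hF, hmain⟩ := h
  -- the hypergraph `E_Z`
  let EZ : Finset (Fin n) → Finset (Finset (Fin n)) := fun Z =>
    Finset.univ.filter (fun e => e.Nonempty ∧ e.card ≤ d ∧ (∃ v ∈ e, v ∈ Z) ∧ ∃ a ∈ e, a.val < s)
  have memEZ : ∀ Z e, e ∈ EZ Z ↔
      (e.Nonempty ∧ e.card ≤ d ∧ (∃ v ∈ e, v ∈ Z) ∧ ∃ a ∈ e, a.val < s) := by
    intro Z e
    simp [EZ]
  have hY : ∀ Z : Finset (Fin n), ∃ T : Finset (Fin N), Z.card = k →
      (T.card ≤ k' ∧ Meets T (caused r F (EZ Z))) := by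
    intro Z
    by_cases hZ : Z.card = k
    · obtain ⟨T, hT⟩ := (hmain (EZ Z) (fun e he => ⟨((memEZ Z e).1 he).1, ((memEZ Z e).1 he).2.1⟩)
        (fun e he => ((memEZ Z e).1 he).2.2.2)).1 ⟨Z, hZ.le, fun e he =>
          ((memEZ Z e).1 he).2.2.1⟩
      exact ⟨T, fun _ => hT⟩
    · exact ⟨∅, fun h => absurd h hZ⟩
  choose Y hY using hY
  have memC : ∀ (E : Finset (Finset (Fin n))) (C : Finset (Fin N)), C ∈ caused r F E ↔
      ∃ D, D ⊆ E ∧ D.card ≤ r ∧ C ∈ F D := by
    intro E C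
    simp only [caused, Finset.mem_biUnion, Finset.mem_filter, Finset.mem_powerset]
    constructor
    · rintro ⟨D, ⟨h1, h2⟩, h3⟩
      exact ⟨D, h1, h2, h3⟩
    · rintro ⟨D, h1, h2, h3⟩
      exact ⟨D, ⟨h1, h2⟩, h3⟩
  refine ⟨fun C Z => Z.card = k ∧ Disjoint C (Y Z), ?_⟩
  intro Z hZ e hed hes heZ
  -- the hypergraph `E'`
  let A : Finset (Finset (Fin n)) := (Z.filter (fun z => z.val < s)).image (fun z => {z})
  let B : Finset (Finset (Fin n)) :=
    ((Finset.univ.filter (fun a : Fin n => a.val < s)) ×ˢ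
      (Z.filter (fun z => ¬ z.val < s))).image (fun p => {p.1, p.2})
  have memA : ∀ f, f ∈ A ↔ ∃ z ∈ Z, z.val < s ∧ {z} = f := by
    intro f
    simp only [A, Finset.mem_image, Finset.mem_filter]
    constructor
    · rintro ⟨z, ⟨h1, h2⟩, h3⟩
      exact ⟨z, h1, h2, h3⟩
    · rintro ⟨z, h1, h2, h3⟩
      exact ⟨z, ⟨h1, h2⟩, h3⟩
  have memB : ∀ f, f ∈ B ↔ ∃ a z : Fin n, a.val < s ∧ z ∈ Z ∧ ¬ z.val < s ∧ {a, z} = f := by
    intro f
    simp only [B, Finset.mem_image, Finset.mem_filter, Finset.mem_product, Finset.mem_univ,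
      true_and, Prod.exists]
    constructor
    · rintro ⟨a, z, ⟨h1, h2, h3⟩, h4⟩
      exact ⟨a, z, h1, h2, h3, h4⟩
    · rintro ⟨a, z, h1, h2, h3, h4⟩
      exact ⟨a, z, ⟨h1, h2, h3⟩, h4⟩
  have hAB : ∀ f, f ∈ A ∨ f ∈ B →
      (f.Nonempty ∧ f.card ≤ d ∧ (∃ v ∈ f, v ∈ Z) ∧ ∃ a ∈ f, a.val < s) := by
    rintro f (hf | hf)
    · obtain ⟨z, h1, h2, rfl⟩ := (memA f).1 hf
      exact ⟨⟨z, Finset.mem_singleton_self z⟩, by rw [Finset.card_singleton]; omega,
        ⟨z, Finset.mem_singleton_self z, h1⟩, ⟨z, Finset.mem_singleton_self z, h2⟩⟩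
    · obtain ⟨a, z, h1, h2, h3, rfl⟩ := (memB f).1 hf
      refine ⟨⟨a, Finset.mem_insert_self a _⟩, (Finset.card_le_two).trans hd,
        ⟨z, Finset.mem_insert_of_mem (Finset.mem_singleton_self z), h2⟩,
        ⟨a, Finset.mem_insert_self a _, h1⟩⟩
  let E' : Finset (Finset (Fin n)) := insert e (A ∪ B)
  have memE' : ∀ f, f ∈ E' ↔ f = e ∨ (f ∈ A ∨ f ∈ B) := by
    intro f
    simp [E']
  have he1 : e.Nonempty := by
    rw [← Finset.card_pos]
    omega
  have hE'1 : IsHg d n E' := by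
    intro f hf
    rcases (memE' f).1 hf with rfl | hf
    · exact ⟨he1, hed.le⟩
    · exact ⟨(hAB f hf).1, (hAB f hf).2.1⟩
  have hE'2 : Anchored s E' := by
    intro f hf
    rcases (memE' f).1 hf with rfl | hf
    · exact hes
    · exact (hAB f hf).2.2.2
  have hno : ¬ ∃ S : Finset (Fin n), S.card ≤ k ∧ Meets S E' := by
    rintro ⟨S, hS, hM⟩
    have hZS : Z ⊆ S := by
      intro z hz
      by_cases hzs : z.val < s
      · obtain ⟨v, hv, hvS⟩ := hM {z} ((memE' _).2 (Or.inr (Or.inl ((memA _).2 ⟨z, hz, hzs, rfl⟩))))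
        rw [Finset.mem_singleton] at hv
        rw [← hv]
        exact hvS
      · by_contra hzS
        have h1 : Finset.univ.filter (fun a : Fin n => a.val < s) ⊆ S := by
          intro a ha
          have ha' : a.val < s := (Finset.mem_filter.1 ha).2
          obtain ⟨v, hv, hvS⟩ := hM {a, z} ((memE' _).2 (Or.inr (Or.inr
            ((memB _).2 ⟨a, z, ha', hz, hzs, rfl⟩))))
          rw [Finset.mem_insert, Finset.mem_singleton] at hv
          rcases hv with rfl | rfl
          · exact hvS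
          · exact absurd hvS hzS
        have h2 := Finset.card_le_card h1
        rw [h629_card_lt hsn] at h2
        omega
    have hZS' : Z = S := Finset.eq_of_subset_of_card_le hZS (by omega)
    obtain ⟨v, hv, hvS⟩ := hM e ((memE' e).2 (Or.inl rfl))
    rw [← hZS'] at hvS
    exact Finset.disjoint_left.1 heZ hv hvS
  have hno2 : ¬ Meets (Y Z) (caused r F E') := by
    intro hM
    exact hno ((hmain E' hE'1 hE'2).2 ⟨Y Z, (hY Z hZ).1, hM⟩)
  unfold Meets at hno2
  push Not at hno2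
  obtain ⟨C, hC, hCY⟩ := hno2
  obtain ⟨D, hDE, hDr, hCD⟩ := (memC E' C).1 hC
  have hCY' : Disjoint C (Y Z) := Finset.disjoint_left.2 hCY
  have hdisj : ∀ Z' : Finset (Fin n), Z'.card = k → Disjoint C (Y Z') → ¬ D ⊆ EZ Z' := by
    intro Z' hZ' hd' hsub
    obtain ⟨v, hv, hv'⟩ := (hY Z' hZ').2 C ((memC _ C).2 ⟨D, hsub, hDr, hCD⟩)
    exact Finset.disjoint_left.1 hd' hv hv'
  have heD : e ∈ D := by
    by_contra heD
    refine hdisj Z hZ hCY' ?_
    intro f hf
    rcases (memE' f).1 (hDE hf) with rfl | hf'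
    · exact absurd hf heD
    · exact (memEZ Z f).2 (hAB f hf')
  have hg : ∀ f : Finset (Fin n), ∃ z : Fin n, f ∈ D.erase e → (z ∈ f ∧ z ∈ Z) := by
    intro f
    by_cases hf : f ∈ D.erase e
    · rw [Finset.mem_erase] at hf
      rcases (memE' f).1 (hDE hf.2) with h1 | h1
      · exact absurd h1 hf.1
      · obtain ⟨z, h2, h3⟩ := (hAB f h1).2.2.1
        exact ⟨z, fun _ => ⟨h2, h3⟩⟩
    · obtain ⟨z, -⟩ := he1
      exact ⟨z, fun h => absurd h hf⟩
  choose g hg using hg
  refine ⟨C, (hF D C hCD).2, ⟨hZ, hCY'⟩, (D.erase e).image g, ?_, ?_, ?_⟩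
  · intro z hz
    obtain ⟨f, hf, rfl⟩ := Finset.mem_image.1 hz
    exact (hg f hf).2
  · have h1 : ((D.erase e).image g).card ≤ (D.erase e).card := Finset.card_image_le
    have h2 := Finset.card_erase_add_one heD
    omega
  · rintro v hv Z' ⟨hZ', hd'⟩ hsub
    refine hdisj Z' hZ' hd' ?_
    intro f hf
    rw [memEZ]
    refine ⟨(hE'1 f (hDE hf)).1, (hE'1 f (hDE hf)).2, ?_, hE'2 f (hDE hf)⟩
    by_cases hfe : f = e
    · subst hfe
      exact ⟨v, hv, hsub (Finset.mem_insert_self v _)⟩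
    · have hf' : f ∈ D.erase e := Finset.mem_erase.2 ⟨hfe, hf⟩
      exact ⟨g f, (hg f hf').1, hsub (Finset.mem_insert_of_mem (Finset.mem_image_of_mem g hf'))⟩

/-- TARGET 2. -/
theorem lr_local_pos {d n s r k N : ℕ} (hd : 1 ≤ d) (hks : k < s) (hsn : s ≤ n)
    (h : LocalKernel d n s r k N) : 1 ≤ N := by
  classical
  rcases Nat.eq_zero_or_pos N with rfl | hN
  · exfalso
    obtain ⟨k', F, hF, hmain⟩ := h
    let E : Finset (Finset (Fin n)) :=
      (Finset.univ.filter (fun a : Fin n => a.val < s)).image (fun a => {a})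
    have memE : ∀ f, f ∈ E ↔ ∃ a : Fin n, a.val < s ∧ {a} = f := by
      intro f
      simp [E]
    obtain ⟨S, hS, hM⟩ := (hmain E (by
      intro f hf
      obtain ⟨a, ha, rfl⟩ := (memE f).1 hf
      exact ⟨⟨a, Finset.mem_singleton_self a⟩, by rw [Finset.card_singleton]; exact hd⟩) (by
      intro f hf
      obtain ⟨a, ha, rfl⟩ := (memE f).1 hf
      exact ⟨a, Finset.mem_singleton_self a, ha⟩)).2 ⟨∅, by rw [Finset.card_empty]; omega, by
        intro C hC
        obtain ⟨D, -, -, h3⟩ := (h629_mem_caused E C).1 hC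
        obtain ⟨x, -⟩ := (hF D C h3).1
        exact x.elim0⟩
    have h1 : Finset.univ.filter (fun a : Fin n => a.val < s) ⊆ S := by
      intro a ha
      obtain ⟨v, hv, hvS⟩ := hM {a} ((memE _).2 ⟨a, (Finset.mem_filter.1 ha).2, rfl⟩)
      rw [Finset.mem_singleton] at hv
      rw [← hv]
      exact hvS
    have h2 := Finset.card_le_card h1
    rw [h629_card_lt hsn] at h2
    omega
  · exact hN

/-- TARGET 3. -/
theorem edge_of_local {d n s k N : ℕ} (h : LocalKernel d n s 1 k N) : EdgeKernel d n s k N := by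
  classical
  obtain ⟨k', F, hF, hmain⟩ := h
  refine ⟨k', F ∅, fun e => F {e}, hF ∅, fun e => hF {e}, ?_⟩
  intro E hE hA
  rw [hmain E hE hA]
  have : caused 1 F E = F ∅ ∪ E.biUnion (fun e => F {e}) := by
    ext C
    rw [h629_mem_caused, Finset.mem_union, Finset.mem_biUnion]
    constructor
    · rintro ⟨D, h1, h2, h3⟩
      rcases Nat.lt_or_ge D.card 1 with h4 | h4
      · have : D = ∅ := Finset.card_eq_zero.1 (by omega)
        subst this
        exact Or.inl h3
      · obtain ⟨e, rfl⟩ := Finset.card_eq_one.1 (le_antisymm h2 h4)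
        exact Or.inr ⟨e, h1 (Finset.mem_singleton_self e), h3⟩
    · rintro (h | ⟨e, he, h⟩)
      · exact ⟨∅, Finset.empty_subset _, by rw [Finset.card_empty]; omega, h⟩
      · exact ⟨{e}, Finset.singleton_subset_iff.2 he, by rw [Finset.card_singleton], h⟩
  rw [this]

/-- TARGET 4. -/
theorem local_of_edge {d n s k N : ℕ} (h : EdgeKernel d n s k N) : LocalKernel d n s 1 k N := by
  classical
  obtain ⟨k', B, F, hB, hF, hmain⟩ := h
  refine ⟨k', fun D => B ∪ D.biUnion F, ?_, ?_⟩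
  · intro D C hC
    rcases Finset.mem_union.1 hC with h | h
    · exact hB C h
    · obtain ⟨e, -, he⟩ := Finset.mem_biUnion.1 h
      exact hF e C he
  · intro E hE hA
    rw [hmain E hE hA]
    have : caused 1 (fun D => B ∪ D.biUnion F) E = B ∪ E.biUnion F := by
      ext C
      rw [h629_mem_caused, Finset.mem_union, Finset.mem_biUnion]
      constructor
      · rintro ⟨D, h1, h2, h3⟩
        rcases Finset.mem_union.1 h3 with h4 | h4
        · exact Or.inl h4
        · obtain ⟨e, he, hC⟩ := Finset.mem_biUnion.1 h4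
          exact Or.inr ⟨e, h1 he, hC⟩
      · rintro (h | ⟨e, he, h⟩)
        · exact ⟨∅, Finset.empty_subset _, by rw [Finset.card_empty]; omega,
            Finset.mem_union_left _ h⟩
        · exact ⟨{e}, Finset.singleton_subset_iff.2 he, by rw [Finset.card_singleton],
            Finset.mem_union_right _ (Finset.mem_biUnion.2 ⟨e, Finset.mem_singleton_self e, h⟩)⟩
    rw [this]

/-- TARGET 5. -/
theorem local_mono {d n s r r' k N : ℕ} (hr : r ≤ r') (h : LocalKernel d n s r k N) :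
    LocalKernel d n s r' k N := by
  classical
  obtain ⟨k', F, hF, hmain⟩ := h
  refine ⟨k', fun D => if D.card ≤ r then F D else ∅, ?_, ?_⟩
  · intro D C hC
    by_cases hD : D.card ≤ r
    · simp only [hD, if_true] at hC
      exact hF D C hC
    · simp only [hD, if_false] at hC
      exact absurd hC (Finset.notMem_empty C)
  · intro E hE hA
    rw [hmain E hE hA]
    have : caused r' (fun D => if D.card ≤ r then F D else ∅) E = caused r F E := by
      ext C
      rw [h629_mem_caused, h629_mem_caused]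
      constructor
      · rintro ⟨D, h1, h2, h3⟩
        by_cases hD : D.card ≤ r
        · simp only [hD, if_true] at h3
          exact ⟨D, h1, hD, h3⟩
        · simp only [hD, if_false] at h3
          exact absurd h3 (Finset.notMem_empty C)
      · rintro ⟨D, h1, h2, h3⟩
        exact ⟨D, h1, h2.trans hr, by simp only [h2, if_true]; exact h3⟩
    rw [this]

/-- TARGET 6. -/
theorem local_restrict {d n n' s s' r k N : ℕ} (hn : n' ≤ n) (hs : s' ≤ s)
    (h : LocalKernel d n s r k N) : LocalKernel d n' s' r k N := by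
  classical
  obtain ⟨k', F, hF, hmain⟩ := h
  let ι : Fin n' ↪ Fin n := Fin.castLEEmb hn
  have hι : ∀ v : Fin n', (ι v).val = v.val := fun v => rfl
  let φ : Finset (Fin n') → Finset (Fin n) := fun e => e.map ι
  have hφ : Function.Injective φ := Finset.map_injective ι
  refine ⟨k', fun D => F (D.image φ), fun D => hF _, ?_⟩
  intro E hE hA
  have h1 : IsHg d n (E.image φ) := by
    intro f hf
    obtain ⟨e, he, rfl⟩ := Finset.mem_image.1 hf
    obtain ⟨⟨v, hv⟩, h3⟩ := hE e he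
    refine ⟨⟨ι v, Finset.mem_map_of_mem ι hv⟩, ?_⟩
    show (e.map ι).card ≤ d
    rw [Finset.card_map]
    exact h3
  have h2 : Anchored s (E.image φ) := by
    intro f hf
    obtain ⟨e, he, rfl⟩ := Finset.mem_image.1 hf
    obtain ⟨v, hv, h3⟩ := hA e he
    exact ⟨ι v, Finset.mem_map_of_mem ι hv, by rw [hι]; omega⟩
  have h3 : caused r (fun D => F (D.image φ)) E = caused r F (E.image φ) := by
    ext C
    rw [h629_mem_caused, h629_mem_caused]
    constructor
    · rintro ⟨D, h1, h2, h3⟩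
      exact ⟨D.image φ, Finset.image_subset_image h1, Finset.card_image_le.trans h2, h3⟩
    · rintro ⟨D, h1, h2, h3⟩
      obtain ⟨D', hD', rfl⟩ := Finset.subset_image_iff.1 h1
      refine ⟨D', hD', ?_, h3⟩
      rw [Finset.card_image_of_injective _ hφ] at h2
      exact h2
  rw [h3, ← hmain (E.image φ) h1 h2]
  constructor
  · rintro ⟨S, hS, hM⟩
    refine ⟨S.map ι, by rw [Finset.card_map]; exact hS, ?_⟩
    intro f hf
    obtain ⟨e, he, rfl⟩ := Finset.mem_image.1 hf
    obtain ⟨v, hv, hvS⟩ := hM e he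
    exact ⟨ι v, Finset.mem_map_of_mem ι hv, Finset.mem_map_of_mem ι hvS⟩
  · rintro ⟨S, hS, hM⟩
    refine ⟨Finset.univ.filter (fun v => ι v ∈ S), ?_, ?_⟩
    · rw [← Finset.card_map ι]
      refine (Finset.card_le_card ?_).trans hS
      intro w hw
      obtain ⟨v, hv, rfl⟩ := Finset.mem_map.1 hw
      exact (Finset.mem_filter.1 hv).2
    · intro e he
      obtain ⟨w, hw, hwS⟩ := hM (φ e) (Finset.mem_image_of_mem φ he)
      obtain ⟨v, hv, rfl⟩ := Finset.mem_map.1 hw
      exact ⟨v, hv, Finset.mem_filter.2 ⟨Finset.mem_univ v, hwS⟩⟩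

end Pool.Agent.Helper650_LocR

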