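import Mathlib

/-!
# Job LA2: the numerical part of a lower bound, version with an anchor set

Plain words.  This is a variant of the job LO2 (its proof is in
`Pool/Agent/Helper650_HSK/LO2.lean` on origin/main, you may copy any part of it).  Given `k ≥ 1`,
`k + 1 ≤ s`, `2 s ≤ n ≤ (k+1)^B`, `N ≥ 1` and the hypothesis (the conclusion of a counting lemma, for
all `s₁, s₂, L₁, L₂`), show `N ≥ c min(s^(1/d) n^(1-1/d), k^(1+1/d)) k^(-ε)`.
Small cases: if `N ≥ n` this is clear (with `c ≤ 1`, since `s ≤ n`), and if `k ≤ k0` (a constant) it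
is clear since `N ≥ 1` and the minimum is at most `k0^2` (take `c` small).
So let `N < n`, `k ≥ max(d, 8)`, hence `k + d ≤ n` and `n - s ≥ n/2 ≥ d`.  Take `s₁ = s₂ = k / 4`
(at least `k/8`), `L₁ = ⌊d s log(n+1) / s₁⌋ + 1`, `L₂ = ⌊d n log(n+1) / s₂⌋ + 1`.  Then
`(1 - L₂/n)^s₂ ≤ exp(-L₂ s₂ / n) < (n+1)^(-d) ≤ (N+1)^(-d)` (if `L₂ ≥ n` the left side below is `0`),
so `(N+1)^d (n-L₂)^s₂ < n^s₂`, and similarly `(N+1)^d (s-L₁)^s₁ < s^s₁`.  Also
`choose (n-s) (d-1) ≥ ((n-s)/(d-1))^(d-1) ≥ (n/(2d))^(d-1)`.  First alternative: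
`s (n/(2d))^(d-1) ≤ 2 (N+1)^d ≤ 2 (2N)^d`, so `N ≥ c s^(1/d) n^(1-1/d)`.  Second alternative:
`s (n/(2d))^(d-1) (k/2) ≤ 2 (N+1)^d L₁ (L₂+d)^(d-1)`; here `L₁ ≤ C s log(n+1) / k` and
`L₂ + d ≤ C n log(n+1) / k` for a constant `C` (use `s ≥ k`, `n ≥ k`), hence
`(N+1)^d ≥ c k^(d+1) / log(n+1)^d`, and `log(n+1) ≤ C' k^ε`.
-/

namespace Pool.Agent.Helper650_LocR

theorem h452la_choose (d n : ℕ) (hdn : 2 * d ≤ n) :
    (n : ℝ) ^ d ≤ (2 * d : ℝ) ^ d * (n.choose d : ℝ) := by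
  have h1 : ((n + 1 - d : ℕ) : ℝ) ^ d ≤ (Nat.factorial d : ℝ) * (n.choose d : ℝ) := by
    have := Nat.pow_sub_le_descFactorial n d
    have h2 := Nat.descFactorial_eq_factorial_mul_choose n d
    rw [h2] at this
    exact_mod_cast this
  have h2 : (Nat.factorial d : ℝ) ≤ (d : ℝ) ^ d := by exact_mod_cast Nat.factorial_le_pow d
  have h3 : (n : ℝ) ≤ 2 * ((n + 1 - d : ℕ) : ℝ) := by
    have : n ≤ 2 * (n + 1 - d) := by omega
    exact_mod_cast this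
  calc (n : ℝ) ^ d ≤ (2 * ((n + 1 - d : ℕ) : ℝ)) ^ d := pow_le_pow_left₀ (by positivity) h3 d
    _ = 2 ^ d * ((n + 1 - d : ℕ) : ℝ) ^ d := mul_pow _ _ _
    _ ≤ 2 ^ d * ((Nat.factorial d : ℝ) * (n.choose d : ℝ)) := by gcongr
    _ ≤ 2 ^ d * ((d : ℝ) ^ d * (n.choose d : ℝ)) := by gcongr
    _ = _ := by rw [mul_pow]; ring

/-- The counting hypothesis holds for `L = ⌊d m log(n+1) / t⌋ + 1`. -/
theorem h452la_lt (d m n N t : ℕ) (hm : 1 ≤ m) (ht : 1 ≤ t) (hNn : N < n) :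
    (N + 1) ^ d * (m - (⌊(d : ℝ) * m * Real.log ((n : ℝ) + 1) / t⌋₊ + 1)) ^ t < m ^ t := by
  have hm0 : (0 : ℝ) < m := by exact_mod_cast hm
  have ht0 : (0 : ℝ) < t := by exact_mod_cast ht
  have hn0 : (0 : ℝ) ≤ n := by positivity
  set X : ℝ := (d : ℝ) * m * Real.log ((n : ℝ) + 1) / t with hX
  have hX0 : 0 ≤ X := by
    have : 0 ≤ Real.log ((n : ℝ) + 1) := Real.log_nonneg (by linarith)
    positivity
  set L := ⌊X⌋₊ + 1 with hL
  have hLX : X < L := by rw [hL]; push_cast; exact Nat.lt_floor_add_one X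
  by_cases hLn : m ≤ L
  · rw [Nat.sub_eq_zero_of_le hLn, zero_pow (by omega), mul_zero]
    apply pow_pos
    omega
  · push Not at hLn
    have h1 : (((N + 1) ^ d * (m - L) ^ t : ℕ) : ℝ) < ((m ^ t : ℕ) : ℝ) := by
      push_cast [Nat.cast_sub hLn.le]
      have h2 : ((m : ℝ) - L) = m * (1 - L / m) := by
        field_simp
      have h3 : (1 - (L : ℝ) / m) ≤ Real.exp (-((L : ℝ) / m)) := by
        have := Real.add_one_le_exp (-((L : ℝ) / m))
        linarith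
      have h4 : 0 ≤ (1 - (L : ℝ) / m) := by
        have : (L : ℝ) < m := by exact_mod_cast hLn
        have : (L : ℝ) / m < 1 := by rw [div_lt_one hm0]; exact this
        linarith
      have h5 : (1 - (L : ℝ) / m) ^ t ≤ Real.exp (-((L : ℝ) * t / m)) := by
        calc (1 - (L : ℝ) / m) ^ t ≤ (Real.exp (-((L : ℝ) / m))) ^ t :=
              pow_le_pow_left₀ h4 h3 t
          _ = Real.exp (-((L : ℝ) * t / m)) := by
              rw [← Real.exp_nat_mul]; congr 1; ring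
      have h6 : Real.exp (-((L : ℝ) * t / m)) < Real.exp (-(d * Real.log ((n : ℝ) + 1))) := by
        apply Real.exp_lt_exp.mpr
        apply neg_lt_neg
        rw [lt_div_iff₀ hm0]
        rw [hX, div_lt_iff₀ ht0] at hLX
        linarith
      have h7 : Real.exp (-(d * Real.log ((n : ℝ) + 1))) = (((n : ℝ) + 1) ^ d)⁻¹ := by
        rw [Real.exp_neg, Real.exp_nat_mul, Real.exp_log (by linarith)]
      have h8 : ((N : ℝ) + 1) ^ d ≤ ((n : ℝ) + 1) ^ d := by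
        apply pow_le_pow_left₀ (by positivity)
        have : (N : ℝ) < n := by exact_mod_cast hNn
        linarith
      rw [h2, mul_pow]
      calc ((N : ℝ) + 1) ^ d * ((m : ℝ) ^ t * (1 - (L : ℝ) / m) ^ t)
          ≤ ((n : ℝ) + 1) ^ d * ((m : ℝ) ^ t * (1 - (L : ℝ) / m) ^ t) := by
            apply mul_le_mul_of_nonneg_right h8
            positivity
        _ < ((n : ℝ) + 1) ^ d * ((m : ℝ) ^ t * (((n : ℝ) + 1) ^ d)⁻¹) := by
            apply mul_lt_mul_of_pos_left _ (by positivity)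
            apply mul_lt_mul_of_pos_left _ (by positivity)
            rw [← h7]
            exact lt_of_le_of_lt h5 h6
        _ = (m : ℝ) ^ t := by
            field_simp
    exact_mod_cast h1

/-- The size of `L`. -/
theorem h452la_L (d m k t e : ℕ) (ℓ : ℝ) (hd : 1 ≤ d) (he : e ≤ d) (hℓ : 1 ≤ ℓ) (hk : 1 ≤ k)
    (hkm : k ≤ m) (ht : 1 ≤ t) (hkt : k ≤ 6 * t) :
    ((⌊(d : ℝ) * m * ℓ / t⌋₊ + 1 : ℕ) : ℝ) + e ≤ 8 * d * (m * ℓ / k) := by
  have hdR : (1 : ℝ) ≤ d := by exact_mod_cast hd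
  have heR : (e : ℝ) ≤ d := by exact_mod_cast he
  have hk0 : (0 : ℝ) < k := by exact_mod_cast hk
  have ht0 : (0 : ℝ) < t := by exact_mod_cast ht
  have hkmR : (k : ℝ) ≤ m := by exact_mod_cast hkm
  have hktR : (k : ℝ) ≤ 6 * t := by exact_mod_cast hkt
  have hX0 : 0 ≤ (d : ℝ) * m * ℓ / t := by positivity
  have h1 : ((⌊(d : ℝ) * m * ℓ / t⌋₊ + 1 : ℕ) : ℝ) ≤ (d : ℝ) * m * ℓ / t + 1 := by
    push_cast
    linarith [Nat.floor_le hX0]
  have e1 : (d : ℝ) * m * ℓ / t ≤ 6 * d * (m * ℓ / k) := by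
    rw [div_le_iff₀ ht0]
    have : 6 * (d : ℝ) * (m * ℓ / k) * t = d * m * ℓ * (6 * t / k) := by
      field_simp
    rw [this]
    have h6 : 1 ≤ 6 * (t : ℝ) / k := by rw [le_div_iff₀ hk0]; linarith
    have h7 : 0 ≤ (d : ℝ) * m * ℓ := by positivity
    nlinarith
  have e2 : 1 ≤ m * ℓ / k := by
    rw [le_div_iff₀ hk0]
    nlinarith
  have e3 : (d : ℝ) ≤ d * (m * ℓ / k) := by nlinarith
  nlinarith

set_option maxHeartbeats 4000000 in
/-- The main case. -/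
theorem h452la_main (d : ℕ) (hd : 2 ≤ d) (B : ℕ) (ε : ℝ) (hε : 0 < ε) (k n s N : ℕ)
    (hk8 : 2 * d + 8 ≤ k) (hks : k + 1 ≤ s) (hsn : 2 * s ≤ n) (hn : n ≤ (k + 1) ^ B) (hN : 1 ≤ N)
    (hNn : N < n)
    (H : ∀ s₁ s₂ L₁ L₂ : ℕ, s₁ + s₂ ≤ k → (N + 1) ^ d * (s - L₁) ^ s₁ < s ^ s₁ →
        (N + 1) ^ d * (n - L₂) ^ s₂ < n ^ s₂ →
        (s * (n - s).choose (d - 1) ≤ 2 * (N + 1) ^ d ∨
          s * (n - s).choose (d - 1) * (k - (s₁ + s₂) + 1) ≤
            2 * ((N + 1) ^ d * (L₁ * (L₂ + d) ^ (d - 1))))) :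
    (s : ℝ) ^ (1 / (d : ℝ)) * (n : ℝ) ^ (1 - 1 / (d : ℝ)) ≤ 16 * d * N ∨
      (k : ℝ) ^ (1 + 1 / (d : ℝ)) * (k : ℝ) ^ (-ε) ≤ 512 * d ^ 2 * (B + 1) / ε * N := by
  obtain ⟨f, rfl⟩ : ∃ f, d = f + 1 := ⟨d - 1, by omega⟩
  have hdf : f + 1 - 1 = f := by omega
  rw [hdf] at H
  set d := f + 1 with hd'
  have hdR : (1 : ℝ) ≤ d := by
    have : 1 ≤ d := by omega
    exact_mod_cast this
  have hkR : (8 : ℝ) ≤ k := by
    have : 8 ≤ k := by omega
    exact_mod_cast this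
  have hk0 : (0 : ℝ) < k := by linarith
  have hksR : (k : ℝ) ≤ s := by
    have : k ≤ s := by omega
    exact_mod_cast this
  have hs0 : (0 : ℝ) < s := by linarith
  have hsnR : 2 * (s : ℝ) ≤ n := by exact_mod_cast hsn
  have hNR : (1 : ℝ) ≤ N := by exact_mod_cast hN
  have hn0 : (0 : ℝ) < n := by linarith
  set t := k / 4 with ht
  have ht1 : 1 ≤ t := by omega
  have hkt : k ≤ 6 * t := by omega
  have htk : t + t ≤ k := by omega
  set ℓ : ℝ := Real.log ((n : ℝ) + 1) with hℓ'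
  have hℓ : 1 ≤ ℓ := by
    rw [hℓ', Real.le_log_iff_exp_le (by linarith)]
    have := Real.exp_one_lt_d9
    linarith
  have hℓ0 : 0 < ℓ := by linarith
  set L₁ := ⌊(d : ℝ) * s * ℓ / t⌋₊ + 1 with hL₁
  set L₂ := ⌊(d : ℝ) * n * ℓ / t⌋₊ + 1 with hL₂
  have hlt1 : (N + 1) ^ d * (s - L₁) ^ t < s ^ t :=
    h452la_lt d s n N t (by omega) ht1 hNn
  have hlt2 : (N + 1) ^ d * (n - L₂) ^ t < n ^ t :=
    h452la_lt d n n N t (by omega) ht1 hNn
  have hch : (n : ℝ) ^ f ≤ (4 * d : ℝ) ^ d * ((n - s).choose f : ℝ) := by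
    have e1 := h452la_choose f (n - s) (by omega)
    have e2 : (n : ℝ) ≤ 2 * ((n - s : ℕ) : ℝ) := by
      have : n ≤ 2 * (n - s) := by omega
      exact_mod_cast this
    have hfd : (f : ℝ) ≤ d := by
      rw [hd']; push_cast; linarith
    calc (n : ℝ) ^ f ≤ (2 * ((n - s : ℕ) : ℝ)) ^ f := pow_le_pow_left₀ hn0.le e2 f
      _ = 2 ^ f * ((n - s : ℕ) : ℝ) ^ f := mul_pow _ _ _
      _ ≤ 2 ^ f * ((2 * f : ℝ) ^ f * ((n - s).choose f : ℝ)) := by gcongr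
      _ = (4 * f : ℝ) ^ f * ((n - s).choose f : ℝ) := by
          rw [← mul_assoc, ← mul_pow]; congr 2; ring
      _ ≤ (4 * d : ℝ) ^ f * ((n - s).choose f : ℝ) := by gcongr
      _ ≤ (4 * d : ℝ) ^ d * ((n - s).choose f : ℝ) := by
          gcongr
          · linarith
          · omega
  have h24 : (2 : ℝ) ≤ 2 ^ d := by
    calc (2 : ℝ) = 2 ^ 1 := by norm_num
      _ ≤ 2 ^ d := pow_le_pow_right₀ (by norm_num) (by omega)
  have h44 : (4 : ℝ) ≤ 4 ^ d := by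
    calc (4 : ℝ) = 4 ^ 1 := by norm_num
      _ ≤ 4 ^ d := pow_le_pow_right₀ (by norm_num) (by omega)
  have hN2 : (N : ℝ) + 1 ≤ 2 * N := by linarith
  rcases H t t L₁ L₂ htk hlt1 hlt2 with h1 | h1
  · left
    have h1R : (s : ℝ) * ((n - s).choose f : ℝ) ≤ 2 * ((N : ℝ) + 1) ^ d := by exact_mod_cast h1
    have h2 : (s : ℝ) * (n : ℝ) ^ f ≤ (16 * d * N) ^ d := by
      calc (s : ℝ) * (n : ℝ) ^ f ≤ s * ((4 * d : ℝ) ^ d * ((n - s).choose f : ℝ)) := by gcongr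
        _ = (4 * d : ℝ) ^ d * (s * ((n - s).choose f : ℝ)) := by ring
        _ ≤ (4 * d : ℝ) ^ d * (2 * ((N : ℝ) + 1) ^ d) := by gcongr
        _ ≤ (4 * d : ℝ) ^ d * (2 ^ d * (2 * N) ^ d) := by gcongr
        _ = _ := by rw [← mul_pow, ← mul_pow]; congr 1; ring
    apply le_of_pow_le_pow_left₀ (n := d) (by omega) (by positivity)
    refine le_trans (le_of_eq ?_) h2
    rw [mul_pow]
    have e1 : ((s : ℝ) ^ (1 / (d : ℝ))) ^ d = s := by
      rw [← Real.rpow_natCast, ← Real.rpow_mul hs0.le]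
      rw [one_div_mul_cancel (by positivity), Real.rpow_one]
    have e2 : ((n : ℝ) ^ (1 - 1 / (d : ℝ))) ^ d = (n : ℝ) ^ f := by
      rw [← Real.rpow_natCast, ← Real.rpow_mul hn0.le, ← Real.rpow_natCast]
      congr 1
      have hd0 : (d : ℝ) ≠ 0 := by positivity
      rw [sub_mul, one_mul, one_div_mul_cancel hd0, hd']
      push_cast
      ring
    rw [e1, e2]
  · right
    have h1R : (s : ℝ) * ((n - s).choose f : ℝ) * ((k : ℝ) / 2) ≤
        2 * (((N : ℝ) + 1) ^ d * ((L₁ : ℝ) * ((L₂ : ℝ) + d) ^ f)) := by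
      have h2 : (s : ℝ) * ((n - s).choose f : ℝ) * ((k - (t + t) + 1 : ℕ) : ℝ) ≤
          2 * (((N : ℝ) + 1) ^ d * ((L₁ : ℝ) * ((L₂ : ℝ) + d) ^ f)) := by
        exact_mod_cast h1
      refine le_trans ?_ h2
      apply mul_le_mul_of_nonneg_left _ (by positivity)
      have : k ≤ 2 * (k - (t + t) + 1) := by omega
      have : (k : ℝ) ≤ 2 * ((k - (t + t) + 1 : ℕ) : ℝ) := by exact_mod_cast this
      linarith
    have hB1 : (L₁ : ℝ) ≤ 8 * d * (s * ℓ / k) := by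
      have := h452la_L d s k t 0 ℓ (by omega) (by omega) hℓ (by omega) (by omega) ht1 hkt
      rw [hL₁]
      simpa using this
    have hB2 : (L₂ : ℝ) + d ≤ 8 * d * (n * ℓ / k) := by
      have := h452la_L d n k t d ℓ (by omega) le_rfl hℓ (by omega) (by omega) ht1 hkt
      rw [hL₂]
      exact this
    have hLL : (L₁ : ℝ) * ((L₂ : ℝ) + d) ^ f ≤ (8 * d * (ℓ / k)) ^ d * (s * (n : ℝ) ^ f) := by
      calc (L₁ : ℝ) * ((L₂ : ℝ) + d) ^ f
          ≤ (8 * d * (s * ℓ / k)) * (8 * d * (n * ℓ / k)) ^ f := by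
            gcongr
        _ = (8 * d * (ℓ / k)) * (8 * d * (ℓ / k)) ^ f * (s * (n : ℝ) ^ f) := by
            have : 8 * (d : ℝ) * (n * ℓ / k) = (8 * d * (ℓ / k)) * n := by ring
            rw [this, mul_pow]
            ring
        _ = (8 * d * (ℓ / k)) ^ d * (s * (n : ℝ) ^ f) := by
            rw [hd', pow_succ]
            ring
    have hpos : 0 < (s : ℝ) * (n : ℝ) ^ f := by positivity
    have h2 : (k : ℝ) ≤ (256 * d ^ 2 * N * (ℓ / k)) ^ d := by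
      have e1 : ((s : ℝ) * (n : ℝ) ^ f) * k ≤
          ((s : ℝ) * (n : ℝ) ^ f) * (256 * d ^ 2 * N * (ℓ / k)) ^ d := by
        calc ((s : ℝ) * (n : ℝ) ^ f) * k
            ≤ (s * ((4 * d : ℝ) ^ d * ((n - s).choose f : ℝ))) * k := by gcongr
          _ = 2 * ((4 * d : ℝ) ^ d) * ((s : ℝ) * ((n - s).choose f : ℝ) * ((k : ℝ) / 2)) := by ring
          _ ≤ 2 * ((4 * d : ℝ) ^ d) *
                (2 * (((N : ℝ) + 1) ^ d * ((L₁ : ℝ) * ((L₂ : ℝ) + d) ^ f))) := by gcongr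
          _ ≤ 2 * ((4 * d : ℝ) ^ d) *
                (2 * ((2 * N) ^ d * ((8 * d * (ℓ / k)) ^ d * (s * (n : ℝ) ^ f)))) := by gcongr
          _ = 4 * ((s : ℝ) * (n : ℝ) ^ f) *
                ((4 * d : ℝ) ^ d * ((2 * N) ^ d * (8 * d * (ℓ / k)) ^ d)) := by ring
          _ ≤ 4 ^ d * ((s : ℝ) * (n : ℝ) ^ f) *
                ((4 * d : ℝ) ^ d * ((2 * N) ^ d * (8 * d * (ℓ / k)) ^ d)) := by gcongr
          _ = ((s : ℝ) * (n : ℝ) ^ f) *
                (4 ^ d * ((4 * d : ℝ) ^ d * ((2 * N) ^ d * (8 * d * (ℓ / k)) ^ d))) := by ring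
          _ = ((s : ℝ) * (n : ℝ) ^ f) * (256 * d ^ 2 * N * (ℓ / k)) ^ d := by
              rw [← mul_pow, ← mul_pow, ← mul_pow]
              congr 2
              ring
      exact le_of_mul_le_mul_left e1 hpos
    have h3 : (k : ℝ) ^ (1 / (d : ℝ)) ≤ 256 * d ^ 2 * N * (ℓ / k) := by
      apply le_of_pow_le_pow_left₀ (n := d) (by omega) (by positivity)
      have : ((k : ℝ) ^ (1 / (d : ℝ))) ^ d = k := by
        rw [← Real.rpow_natCast, ← Real.rpow_mul hk0.le]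
        rw [one_div_mul_cancel (by positivity), Real.rpow_one]
      rw [this]
      exact h2
    have h5 : (k : ℝ) ^ (1 + 1 / (d : ℝ)) ≤ 256 * d ^ 2 * N * ℓ := by
      rw [Real.rpow_add hk0, Real.rpow_one]
      calc (k : ℝ) * (k : ℝ) ^ (1 / (d : ℝ)) ≤ k * (256 * d ^ 2 * N * (ℓ / k)) := by gcongr
        _ = 256 * d ^ 2 * N * ℓ := by field_simp
    have h6 : ℓ ≤ (B + 1) * (2 * ((k : ℝ) ^ ε / ε)) := by
      have e1 : n + 1 ≤ (k + 1) ^ (B + 1) := by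
        calc n + 1 ≤ (k + 1) ^ B + 1 := by omega
          _ ≤ (k + 1) ^ B + (k + 1) ^ B := by
              have := Nat.one_le_pow B (k + 1) (by omega)
              omega
          _ = (k + 1) ^ B * 2 := by ring
          _ ≤ (k + 1) ^ B * (k + 1) := Nat.mul_le_mul_left _ (by omega)
          _ = (k + 1) ^ (B + 1) := (pow_succ _ _).symm
      have e2 : ((n : ℝ) + 1) ≤ ((k : ℝ) + 1) ^ (B + 1) := by exact_mod_cast e1
      have e3 : Real.log ((n : ℝ) + 1) ≤ (B + 1) * Real.log ((k : ℝ) + 1) := by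
        have := Real.log_le_log (by linarith) e2
        rw [Real.log_pow] at this
        push_cast at this
        exact this
      have e4 : Real.log ((k : ℝ) + 1) ≤ 2 * Real.log k := by
        have h7 : (k : ℝ) + 1 ≤ (k : ℝ) ^ 2 := by nlinarith
        have := Real.log_le_log (by linarith) h7
        rw [Real.log_pow] at this
        push_cast at this
        exact this
      have e5 : Real.log k ≤ (k : ℝ) ^ ε / ε := Real.log_le_rpow_div hk0.le hε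
      calc Real.log ((n : ℝ) + 1) ≤ (B + 1) * Real.log ((k : ℝ) + 1) := e3
        _ ≤ (B + 1) * (2 * ((k : ℝ) ^ ε / ε)) := by
            apply mul_le_mul_of_nonneg_left _ (by positivity)
            linarith
    have hkε : (k : ℝ) ^ ε * (k : ℝ) ^ (-ε) = 1 := by
      rw [← Real.rpow_add hk0, add_neg_cancel, Real.rpow_zero]
    have hkε0 : 0 < (k : ℝ) ^ (-ε) := Real.rpow_pos_of_pos hk0 _
    calc (k : ℝ) ^ (1 + 1 / (d : ℝ)) * (k : ℝ) ^ (-ε)
        ≤ (256 * d ^ 2 * N * ℓ) * (k : ℝ) ^ (-ε) := by gcongr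
      _ ≤ (256 * d ^ 2 * N * ((B + 1) * (2 * ((k : ℝ) ^ ε / ε)))) * (k : ℝ) ^ (-ε) := by gcongr
      _ = 512 * d ^ 2 * (B + 1) / ε * N * ((k : ℝ) ^ ε * (k : ℝ) ^ (-ε)) := by
          field_simp
          ring
      _ = 512 * d ^ 2 * (B + 1) / ε * N := by rw [hkε, mul_one]

/-- TARGET 1. -/
theorem la_numeric (d : ℕ) (hd : 2 ≤ d) (B : ℕ) (ε : ℝ) (hε : 0 < ε) :
    ∃ c : ℝ, 0 < c ∧ ∀ k n s N : ℕ, 1 ≤ k → k + 1 ≤ s → 2 * s ≤ n → n ≤ (k + 1) ^ B → 1 ≤ N →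
      (k + d ≤ n → ∀ s₁ s₂ L₁ L₂ : ℕ, s₁ + s₂ ≤ k → (N + 1) ^ d * (s - L₁) ^ s₁ < s ^ s₁ →
        (N + 1) ^ d * (n - L₂) ^ s₂ < n ^ s₂ →
        (s * (n - s).choose (d - 1) ≤ 2 * (N + 1) ^ d ∨
          s * (n - s).choose (d - 1) * (k - (s₁ + s₂) + 1) ≤
            2 * ((N + 1) ^ d * (L₁ * (L₂ + d) ^ (d - 1))))) →
      c * min ((s : ℝ) ^ (1 / (d : ℝ)) * (n : ℝ) ^ (1 - 1 / (d : ℝ)))
        ((k : ℝ) ^ (1 + 1 / (d : ℝ))) * (k : ℝ) ^ (-ε) ≤ N := by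
  have hdR : (1 : ℝ) ≤ d := by
    have : 1 ≤ d := by omega
    exact_mod_cast this
  set K : ℝ := 2 * (d : ℝ) + 8 with hK
  refine ⟨min (min 1 (1 / K ^ 2)) (min (1 / (16 * d)) (1 / (512 * d ^ 2 * (B + 1) / ε))),
    by positivity, ?_⟩
  intro k n s N hk hks hsn hn hN H
  set c := min (min 1 (1 / K ^ 2)) (min (1 / (16 * (d : ℝ))) (1 / (512 * d ^ 2 * (B + 1) / ε)))
    with hc
  have hc0 : 0 < c := by positivity
  have hc1 : c ≤ 1 := (min_le_left _ _).trans (min_le_left _ _)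
  have hc2 : c ≤ 1 / K ^ 2 := (min_le_left _ _).trans (min_le_right _ _)
  have hc3 : c ≤ 1 / (16 * d) := (min_le_right _ _).trans (min_le_left _ _)
  have hc4 : c ≤ 1 / (512 * d ^ 2 * (B + 1) / ε) := (min_le_right _ _).trans (min_le_right _ _)
  have hkR : (1 : ℝ) ≤ k := by exact_mod_cast hk
  have hNR : (1 : ℝ) ≤ N := by exact_mod_cast hN
  have hk0 : (0 : ℝ) < k := by linarith
  have hsR : (1 : ℝ) ≤ s := by
    have : 1 ≤ s := by omega
    exact_mod_cast this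
  have hsnR : (s : ℝ) ≤ n := by
    have : s ≤ n := by omega
    exact_mod_cast this
  have hn0 : (0 : ℝ) < n := by linarith
  have hke : (k : ℝ) ^ (-ε) ≤ 1 := by
    apply Real.rpow_le_one_of_one_le_of_nonpos hkR
    linarith
  have hke0 : 0 ≤ (k : ℝ) ^ (-ε) := by positivity
  set m := min ((s : ℝ) ^ (1 / (d : ℝ)) * (n : ℝ) ^ (1 - 1 / (d : ℝ)))
    ((k : ℝ) ^ (1 + 1 / (d : ℝ))) with hm
  have hm0 : 0 ≤ m := le_min (by positivity) (by positivity)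
  have hms : m ≤ (s : ℝ) ^ (1 / (d : ℝ)) * (n : ℝ) ^ (1 - 1 / (d : ℝ)) := min_le_left _ _
  have hmk : m ≤ (k : ℝ) ^ (1 + 1 / (d : ℝ)) := min_le_right _ _
  have hmn : m ≤ n := by
    refine hms.trans ?_
    calc (s : ℝ) ^ (1 / (d : ℝ)) * (n : ℝ) ^ (1 - 1 / (d : ℝ))
        ≤ (n : ℝ) ^ (1 / (d : ℝ)) * (n : ℝ) ^ (1 - 1 / (d : ℝ)) := by
          gcongr
      _ = n := by
          rw [← Real.rpow_add hn0]
          simp
  by_cases h1 : n ≤ N
  · have : (n : ℝ) ≤ N := by exact_mod_cast h1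
    calc c * m * (k : ℝ) ^ (-ε) ≤ 1 * n * 1 := by gcongr
      _ ≤ N := by linarith
  push Not at h1
  by_cases h2 : 2 * d + 8 ≤ k
  · rcases h452la_main d hd B ε hε k n s N h2 hks hsn hn hN h1 (H (by omega)) with h3 | h3
    · calc c * m * (k : ℝ) ^ (-ε)
          ≤ (1 / (16 * d)) * ((s : ℝ) ^ (1 / (d : ℝ)) * (n : ℝ) ^ (1 - 1 / (d : ℝ))) * 1 := by
            gcongr
        _ ≤ (1 / (16 * d)) * (16 * d * N) * 1 := by gcongr
        _ = N := by field_simp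
    · calc c * m * (k : ℝ) ^ (-ε) ≤ c * (k : ℝ) ^ (1 + 1 / (d : ℝ)) * (k : ℝ) ^ (-ε) := by gcongr
        _ = c * ((k : ℝ) ^ (1 + 1 / (d : ℝ)) * (k : ℝ) ^ (-ε)) := by ring
        _ ≤ (1 / (512 * d ^ 2 * (B + 1) / ε)) * (512 * d ^ 2 * (B + 1) / ε * N) := by gcongr
        _ = N := by field_simp
  · have hkK : (k : ℝ) ≤ K := by
      have : k ≤ 2 * d + 8 := by omega
      have : (k : ℝ) ≤ ((2 * d + 8 : ℕ) : ℝ) := by exact_mod_cast this
      rw [hK]; push_cast at this; exact this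
    have h4 : (k : ℝ) ^ (1 + 1 / (d : ℝ)) ≤ K ^ 2 := by
      calc (k : ℝ) ^ (1 + 1 / (d : ℝ)) ≤ (k : ℝ) ^ (2 : ℝ) := by
            apply Real.rpow_le_rpow_of_exponent_le hkR
            have : 1 / (d : ℝ) ≤ 1 := by rw [div_le_one (by linarith)]; exact hdR
            linarith
        _ = (k : ℝ) ^ 2 := by norm_cast
        _ ≤ K ^ 2 := by gcongr
    calc c * m * (k : ℝ) ^ (-ε) ≤ (1 / K ^ 2) * K ^ 2 * 1 := by
          gcongr
          exact hmk.trans h4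
      _ = 1 := by
          have : K ≠ 0 := by positivity
          field_simp
      _ ≤ N := hNR

end Pool.Agent.Helper650_LocR

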