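import Mathlib

/-!
# Job LR6: the numerical part of a lower bound for `r`-local kernels
-/

namespace Pool.Agent.Helper650_LocR

theorem h183r_choose (d n : ℕ) (hdn : 2 * d ≤ n) :
    (n : ℝ) ^ d ≤ (2 * d : ℝ) ^ d * (n.choose d : ℝ) := by
  have h1 : ((n + 1 - d : ℕ) : ℝ) ^ d ≤ (Nat.factorial d : ℝ) * (n.choose d : ℝ) := by
    have := Nat.pow_sub_le_descFactorial n d
    have h2 := Nat.descFactorial_eq_factorial_mul_choose n d
    rw [h2] at this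
    exact_mod_cast this
  have h2 : (Nat.factorial d : ℝ) ≤ (d : ℝ) ^ d := by exact_mod_cast Nat.factorial_le_pow d
  have h3 : (n : ℝ) ≤ 2 * ((n + 1 - d : ℕ) : ℝ) := by
    have : n ≤ 2 * (n + 1 - d) := by omega
    exact_mod_cast this
  calc (n : ℝ) ^ d ≤ (2 * ((n + 1 - d : ℕ) : ℝ)) ^ d := pow_le_pow_left₀ (by positivity) h3 d
    _ = 2 ^ d * ((n + 1 - d : ℕ) : ℝ) ^ d := mul_pow _ _ _
    _ ≤ 2 ^ d * ((Nat.factorial d : ℝ) * (n.choose d : ℝ)) := by gcongr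
    _ ≤ 2 ^ d * ((d : ℝ) ^ d * (n.choose d : ℝ)) := by gcongr
    _ = _ := by rw [mul_pow]; ring

/-- The counting hypothesis holds if `L` is large. -/
theorem h183r_lt (d r n N q L : ℕ) (hq : 1 ≤ q) (hn : 1 ≤ n) (hNn : N < n)
    (hL : (q : ℝ) ^ r * (((d + r + 1 : ℕ) : ℝ) * Real.log ((n : ℝ) + 1)) < L) :
    2 * ((N + 1) ^ d * (n + 1) ^ r) * (q ^ r - 1) ^ L < q ^ (r * L) := by
  have hq0 : (1 : ℝ) ≤ q := by exact_mod_cast hq
  have hnR : (1 : ℝ) ≤ n := by exact_mod_cast hn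
  have hQ1 : 1 ≤ q ^ r := Nat.one_le_pow _ _ hq
  have hQ : (1 : ℝ) ≤ (q : ℝ) ^ r := one_le_pow₀ hq0
  have h1 : ((2 * ((N + 1) ^ d * (n + 1) ^ r) * (q ^ r - 1) ^ L : ℕ) : ℝ) <
      ((q ^ (r * L) : ℕ) : ℝ) := by
    push_cast [Nat.cast_sub hQ1]
    rw [pow_mul]
    set Q : ℝ := (q : ℝ) ^ r with hQdef
    have hQ0 : 0 < Q := by linarith
    have h2 : (Q - 1) = Q * (1 - 1 / Q) := by field_simp
    have h3 : (1 - 1 / Q) ≤ Real.exp (-(1 / Q)) := by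
      have := Real.add_one_le_exp (-(1 / Q))
      linarith
    have h4 : 0 ≤ 1 - 1 / Q := by
      have : 1 / Q ≤ 1 := by rw [div_le_one hQ0]; exact hQ
      linarith
    have h5 : (1 - 1 / Q) ^ L ≤ Real.exp (-(L / Q)) := by
      calc (1 - 1 / Q) ^ L ≤ (Real.exp (-(1 / Q))) ^ L := pow_le_pow_left₀ h4 h3 L
        _ = Real.exp (-(L / Q)) := by rw [← Real.exp_nat_mul]; congr 1; ring
    have h6 : Real.exp (-(L / Q)) <
        Real.exp (-(((d + r + 1 : ℕ) : ℝ) * Real.log ((n : ℝ) + 1))) := by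
      apply Real.exp_lt_exp.mpr
      apply neg_lt_neg
      rw [lt_div_iff₀ hQ0]
      linarith
    have h7 : Real.exp (-(((d + r + 1 : ℕ) : ℝ) * Real.log ((n : ℝ) + 1))) =
        (((n : ℝ) + 1) ^ (d + r + 1))⁻¹ := by
      rw [Real.exp_neg, Real.exp_nat_mul, Real.exp_log (by linarith)]
    have h8 : ((N : ℝ) + 1) ^ d ≤ ((n : ℝ) + 1) ^ d := by
      apply pow_le_pow_left₀ (by positivity)
      have : (N : ℝ) < n := by exact_mod_cast hNn
      linarith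
    have h9 : 2 * (((N : ℝ) + 1) ^ d * ((n : ℝ) + 1) ^ r) ≤ ((n : ℝ) + 1) ^ (d + r + 1) := by
      calc 2 * (((N : ℝ) + 1) ^ d * ((n : ℝ) + 1) ^ r)
          ≤ ((n : ℝ) + 1) * (((n : ℝ) + 1) ^ d * ((n : ℝ) + 1) ^ r) := by
            gcongr
            linarith
        _ = ((n : ℝ) + 1) ^ (d + r + 1) := by rw [pow_succ, pow_add]; ring
    rw [h2, mul_pow]
    calc 2 * (((N : ℝ) + 1) ^ d * ((n : ℝ) + 1) ^ r) * (Q ^ L * (1 - 1 / Q) ^ L)
        ≤ ((n : ℝ) + 1) ^ (d + r + 1) * (Q ^ L * (1 - 1 / Q) ^ L) := by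
          apply mul_le_mul_of_nonneg_right h9
          positivity
      _ < ((n : ℝ) + 1) ^ (d + r + 1) * (Q ^ L * (((n : ℝ) + 1) ^ (d + r + 1))⁻¹) := by
          apply mul_lt_mul_of_pos_left _ (by positivity)
          apply mul_lt_mul_of_pos_left _ (by positivity)
          rw [← h7]
          exact lt_of_le_of_lt h5 h6
      _ = Q ^ L := by field_simp
  exact_mod_cast h1

/-- the trivial bound -/
theorem h183r_triv (d s n : ℕ) (hd : 1 ≤ d) (hs : 1 ≤ s) (hsn : s ≤ n) :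
    (s : ℝ) ^ (1 / (d : ℝ)) * (n : ℝ) ^ (1 - 1 / (d : ℝ)) ≤ n := by
  have hsR : (1 : ℝ) ≤ s := by exact_mod_cast hs
  have hsnR : (s : ℝ) ≤ n := by exact_mod_cast hsn
  have hn0 : (0 : ℝ) < n := by linarith
  calc (s : ℝ) ^ (1 / (d : ℝ)) * (n : ℝ) ^ (1 - 1 / (d : ℝ))
      ≤ (n : ℝ) ^ (1 / (d : ℝ)) * (n : ℝ) ^ (1 - 1 / (d : ℝ)) := by gcongr
    _ = n := by
        rw [← Real.rpow_add hn0]
        simp

set_option maxHeartbeats 4000000 in
/-- Case (a). -/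
theorem h183r_a (d r : ℕ) (hd : 2 ≤ d) (hr : 1 ≤ r) (ε : ℝ) (hε : 0 < ε) :
    ∃ C : ℝ, 1 ≤ C ∧ ∀ k n s N : ℕ, 4 * d ≤ k → k + 1 ≤ s → 2 * s ≤ n → 1 ≤ N →
      (n : ℝ) ≤ k * (k : ℝ) ^ (1 / ((d : ℝ) * (r : ℝ) ^ 2)) →
      (∀ L m q k₁ : ℕ, k₁ + r * m ≤ k → 1 ≤ q → 2 * n ≤ q * k₁ →
          2 * ((N + 1) ^ d * (n + 1) ^ r) * (q ^ r - 1) ^ L < q ^ (r * L) →
          (s - k₁) * (n - s - k₁).choose (d - 1) * (m + 1) ≤
            (N + 1) ^ d * (r ^ d * (m + 1) + (r * L + 1) ^ (r * d))) →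
      (s : ℝ) ^ (1 / (d : ℝ)) * (n : ℝ) ^ (1 - 1 / (d : ℝ)) * (k : ℝ) ^ (-ε) ≤ C * N := by
  obtain ⟨f, rfl⟩ : ∃ f, d = f + 1 := ⟨d - 1, by omega⟩
  have hdf : f + 1 - 1 = f := by omega
  simp only [hdf]
  set d := f + 1 with hd'
  have hdR : (1 : ℝ) ≤ d := by
    have : 1 ≤ d := by omega
    exact_mod_cast this
  have hrR : (1 : ℝ) ≤ r := by exact_mod_cast hr
  set A : ℝ := r * (d + r + 2) + 1 with hA
  have hA0 : 0 < A := by positivity
  set C1 : ℝ := A ^ (r * d) * 8 ^ (r * (r * d)) + 2 * r ^ d with hC1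
  have hC10 : 0 < C1 := by positivity
  set C2 : ℝ := 4 * r * (8 * d) ^ d * C1 * 2 ^ d with hC2
  have hC20 : 0 < C2 := by positivity
  have hC21 : 1 ≤ C2 := by
    have e1 : (1 : ℝ) ≤ 2 * r ^ d := by
      have : (1 : ℝ) ≤ (r : ℝ) ^ d := one_le_pow₀ hrR
      linarith
    have e2 : 1 ≤ C1 := by
      have : 0 ≤ A ^ (r * d) * 8 ^ (r * (r * d)) := by positivity
      linarith
    have e3 : (1 : ℝ) ≤ (8 * d) ^ d := one_le_pow₀ (by linarith)
    have e4 : (1 : ℝ) ≤ 2 ^ d := one_le_pow₀ (by norm_num)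
    have e5 : (1 : ℝ) ≤ 4 * r := by linarith
    rw [hC2]
    exact one_le_mul_of_one_le_of_one_le (one_le_mul_of_one_le_of_one_le
      (one_le_mul_of_one_le_of_one_le e5 e3) e2) e4
  refine ⟨C2 * (3 * r / ε) ^ r + 1, by linarith [show 0 < C2 * (3 * r / ε) ^ r by positivity], ?_⟩
  intro k n s N hk hks hsn hN hx H
  have hkR : (4 : ℝ) ≤ k := by
    have : 4 ≤ k := by omega
    exact_mod_cast this
  have hk0 : (0 : ℝ) < k := by linarith
  have hksR : (k : ℝ) ≤ s := by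
    have : k ≤ s := by omega
    exact_mod_cast this
  have hs0 : (0 : ℝ) < s := by linarith
  have hsnR : 2 * (s : ℝ) ≤ n := by exact_mod_cast hsn
  have hNR : (1 : ℝ) ≤ N := by exact_mod_cast hN
  have hn0 : (0 : ℝ) < n := by linarith
  have hke : (k : ℝ) ^ (-ε) ≤ 1 := by
    apply Real.rpow_le_one_of_one_le_of_nonpos (by linarith)
    linarith
  have hke0 : 0 < (k : ℝ) ^ (-ε) := by positivity
  have hCN : 0 ≤ C2 * (3 * r / ε) ^ r * N := by positivity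
  by_cases hNn : n ≤ N
  · have h1 : (n : ℝ) ≤ N := by exact_mod_cast hNn
    have h2 := h183r_triv d s n (by omega) (by omega) (by omega)
    have h3 : 0 ≤ (s : ℝ) ^ (1 / (d : ℝ)) * (n : ℝ) ^ (1 - 1 / (d : ℝ)) := by positivity
    nlinarith
  push Not at hNn
  -- the parameters
  set y : ℝ := (k : ℝ) ^ (1 / ((d : ℝ) * (r : ℝ) ^ 2)) with hy
  have hy1 : 1 ≤ y := Real.one_le_rpow (by linarith) (by positivity)
  have hyk : y ^ (r * (r * d)) = k := by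
    rw [hy, ← Real.rpow_natCast, ← Real.rpow_mul hk0.le]
    have : 1 / ((d : ℝ) * (r : ℝ) ^ 2) * ((r * (r * d) : ℕ) : ℝ) = 1 := by
      push_cast
      field_simp
    rw [this, Real.rpow_one]
  have hyk' : y ≤ k := by
    rw [hy]
    calc (k : ℝ) ^ (1 / ((d : ℝ) * (r : ℝ) ^ 2)) ≤ (k : ℝ) ^ (1 : ℝ) := by
          apply Real.rpow_le_rpow_of_exponent_le (by linarith)
          rw [div_le_one (by positivity)]
          have : (1 : ℝ) ≤ (r : ℝ) ^ 2 := one_le_pow₀ hrR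
          nlinarith
      _ = k := Real.rpow_one _
  set k₁ := k / 2 with hk₁
  set m := k / (2 * r) with hm
  have hk11 : 1 ≤ k₁ := by omega
  set q := 2 * n / k₁ + 1 with hq
  have hrm : 2 * r * m ≤ k := Nat.mul_div_le k (2 * r)
  have hrm' : k < 2 * r * (m + 1) := by
    have := Nat.lt_mul_div_succ k (show 0 < 2 * r by omega)
    exact this
  have hcond1 : k₁ + r * m ≤ k := by
    have : 2 * (r * m) ≤ k := by rw [← mul_assoc]; exact hrm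
    omega
  have hcond2 : 2 * n ≤ q * k₁ := by
    have := Nat.lt_mul_div_succ (2 * n) (show 0 < k₁ by omega)
    calc 2 * n ≤ k₁ * (2 * n / k₁ + 1) := this.le
      _ = q * k₁ := by rw [hq, mul_comm]
  have hq1 : 1 ≤ q := Nat.le_add_left 1 _
  have hk1R : (k : ℝ) ≤ 3 * k₁ := by
    have : k ≤ 3 * k₁ := by omega
    exact_mod_cast this
  have hk10 : (0 : ℝ) < k₁ := by linarith
  have hqR : (q : ℝ) ≤ 8 * y := by
    have e1 : (q : ℝ) ≤ (2 * n : ℝ) / k₁ + 1 := by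
      rw [hq]
      push_cast
      have := @Nat.cast_div_le ℝ _ _ _ (2 * n) k₁
      push_cast at this
      linarith
    have e2 : (2 * n : ℝ) / k₁ ≤ 6 * y := by
      rw [div_le_iff₀ hk10]
      nlinarith
    linarith
  have hqR1 : (1 : ℝ) ≤ q := by exact_mod_cast hq1
  set ℓ : ℝ := Real.log ((n : ℝ) + 1) with hℓ'
  have hℓ : 1 ≤ ℓ := by
    rw [hℓ', Real.le_log_iff_exp_le (by linarith)]
    have := Real.exp_one_lt_d9
    linarith
  have hℓ0 : 0 < ℓ := by linarith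
  set X : ℝ := (q : ℝ) ^ r * (((d + r + 1 : ℕ) : ℝ) * ℓ) with hX
  have hX0 : 0 ≤ X := by positivity
  set L := ⌊X⌋₊ + 1 with hL
  have hXL : X < L := by rw [hL]; push_cast; exact Nat.lt_floor_add_one X
  have hcond3 := h183r_lt d r n N q L hq1 (by omega) hNn hXL
  have hqr1 : (1 : ℝ) ≤ (q : ℝ) ^ r := one_le_pow₀ hqR1
  have hqℓ : 1 ≤ (q : ℝ) ^ r * ℓ := one_le_mul_of_one_le_of_one_le hqr1 hℓ
  have hLR : (L : ℝ) ≤ (d + r + 2) * ((q : ℝ) ^ r * ℓ) := by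
    have e1 : (L : ℝ) ≤ X + 1 := by
      rw [hL]
      push_cast
      linarith [Nat.floor_le hX0]
    have e2 : X = (d + r + 1) * ((q : ℝ) ^ r * ℓ) := by rw [hX]; push_cast; ring
    rw [e2] at e1
    linarith
  have hrL : (r : ℝ) * L + 1 ≤ A * ((q : ℝ) ^ r * ℓ) := by
    calc (r : ℝ) * L + 1 ≤ r * ((d + r + 2) * ((q : ℝ) ^ r * ℓ)) + (q : ℝ) ^ r * ℓ := by gcongr
      _ = A * ((q : ℝ) ^ r * ℓ) := by rw [hA]; ring
  have hrL2 : ((r : ℝ) * L + 1) ^ (r * d) ≤ A ^ (r * d) * 8 ^ (r * (r * d)) * (k * ℓ ^ (r * d)) := by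
    calc ((r : ℝ) * L + 1) ^ (r * d) ≤ (A * ((q : ℝ) ^ r * ℓ)) ^ (r * d) :=
          pow_le_pow_left₀ (by positivity) hrL _
      _ = A ^ (r * d) * ((q : ℝ) ^ (r * (r * d)) * ℓ ^ (r * d)) := by
          rw [mul_pow, mul_pow, ← pow_mul]
      _ ≤ A ^ (r * d) * ((8 * y) ^ (r * (r * d)) * ℓ ^ (r * d)) := by gcongr
      _ = A ^ (r * d) * 8 ^ (r * (r * d)) * (k * ℓ ^ (r * d)) := by
          rw [mul_pow 8 y, hyk]; ring
  have hmk : (m : ℝ) + 1 ≤ 2 * k := by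
    have : m ≤ k := Nat.div_le_self _ _
    have : (m : ℝ) ≤ k := by exact_mod_cast this
    linarith
  have hℓp : 1 ≤ ℓ ^ (r * d) := one_le_pow₀ hℓ
  have hsum : (r : ℝ) ^ d * (m + 1) + ((r : ℝ) * L + 1) ^ (r * d) ≤ C1 * (k * ℓ ^ (r * d)) := by
    have e1 : (r : ℝ) ^ d * (m + 1) ≤ 2 * r ^ d * (k * ℓ ^ (r * d)) := by
      calc (r : ℝ) ^ d * (m + 1) ≤ r ^ d * (2 * k) := by gcongr
        _ = 2 * r ^ d * (k * 1) := by ring
        _ ≤ 2 * r ^ d * (k * ℓ ^ (r * d)) := by gcongr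
    calc (r : ℝ) ^ d * (m + 1) + ((r : ℝ) * L + 1) ^ (r * d)
        ≤ 2 * r ^ d * (k * ℓ ^ (r * d)) +
          A ^ (r * d) * 8 ^ (r * (r * d)) * (k * ℓ ^ (r * d)) := add_le_add e1 hrL2
      _ = C1 * (k * ℓ ^ (r * d)) := by rw [hC1]; ring
  -- the left side
  have hch : (n : ℝ) ^ f ≤ (8 * d : ℝ) ^ d * ((n - s - k₁).choose f : ℝ) := by
    have e1 := h183r_choose f (n - s - k₁) (by omega)
    have e2 : (n : ℝ) ≤ 4 * ((n - s - k₁ : ℕ) : ℝ) := by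
      have : n ≤ 4 * (n - s - k₁) := by omega
      exact_mod_cast this
    have hfd : (f : ℝ) ≤ d := by
      rw [hd']; push_cast; linarith
    calc (n : ℝ) ^ f ≤ (4 * ((n - s - k₁ : ℕ) : ℝ)) ^ f := pow_le_pow_left₀ hn0.le e2 f
      _ = 4 ^ f * ((n - s - k₁ : ℕ) : ℝ) ^ f := mul_pow _ _ _
      _ ≤ 4 ^ f * ((2 * f : ℝ) ^ f * ((n - s - k₁).choose f : ℝ)) := by gcongr
      _ = (8 * f : ℝ) ^ f * ((n - s - k₁).choose f : ℝ) := by
          rw [← mul_assoc, ← mul_pow]; congr 2; ring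
      _ ≤ (8 * d : ℝ) ^ f * ((n - s - k₁).choose f : ℝ) := by gcongr
      _ ≤ (8 * d : ℝ) ^ d * ((n - s - k₁).choose f : ℝ) := by
          gcongr
          · linarith
          · omega
  have hsk : (s : ℝ) ≤ 2 * ((s - k₁ : ℕ) : ℝ) := by
    have : s ≤ 2 * (s - k₁) := by omega
    exact_mod_cast this
  have hkm : (k : ℝ) ≤ 2 * r * ((m : ℝ) + 1) := by exact_mod_cast hrm'.le
  have hH := H L m q k₁ hcond1 hq1 hcond2 hcond3
  have hHR : ((s - k₁ : ℕ) : ℝ) * ((n - s - k₁).choose f : ℝ) * ((m : ℝ) + 1) ≤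
      ((N : ℝ) + 1) ^ d * ((r : ℝ) ^ d * (m + 1) + ((r : ℝ) * L + 1) ^ (r * d)) := by
    exact_mod_cast hH
  have hN2 : (N : ℝ) + 1 ≤ 2 * N := by linarith
  have hmain : (s : ℝ) * (n : ℝ) ^ f ≤ C2 * (N ^ d * ℓ ^ (r * d)) := by
    have e1 : k * ((s : ℝ) * (n : ℝ) ^ f) ≤ k * (C2 * (N ^ d * ℓ ^ (r * d))) := by
      calc k * ((s : ℝ) * (n : ℝ) ^ f)
          ≤ (2 * r * ((m : ℝ) + 1)) * ((2 * ((s - k₁ : ℕ) : ℝ)) *
            ((8 * d : ℝ) ^ d * ((n - s - k₁).choose f : ℝ))) := by gcongr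
        _ = 4 * r * (8 * d : ℝ) ^ d *
            (((s - k₁ : ℕ) : ℝ) * ((n - s - k₁).choose f : ℝ) * ((m : ℝ) + 1)) := by ring
        _ ≤ 4 * r * (8 * d : ℝ) ^ d *
            (((N : ℝ) + 1) ^ d * ((r : ℝ) ^ d * (m + 1) + ((r : ℝ) * L + 1) ^ (r * d))) := by
            gcongr
        _ ≤ 4 * r * (8 * d : ℝ) ^ d * ((2 * N) ^ d * (C1 * (k * ℓ ^ (r * d)))) := by gcongr
        _ = k * (C2 * (N ^ d * ℓ ^ (r * d))) := by rw [hC2, mul_pow]; ring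
    exact le_of_mul_le_mul_left e1 hk0
  have hroot : (s : ℝ) ^ (1 / (d : ℝ)) * (n : ℝ) ^ (1 - 1 / (d : ℝ)) ≤ C2 * (N * ℓ ^ r) := by
    apply le_of_pow_le_pow_left₀ (n := d) (by omega) (by positivity)
    have e1 : ((s : ℝ) ^ (1 / (d : ℝ))) ^ d = s := by
      rw [← Real.rpow_natCast, ← Real.rpow_mul hs0.le]
      rw [one_div_mul_cancel (by positivity), Real.rpow_one]
    have e2 : ((n : ℝ) ^ (1 - 1 / (d : ℝ))) ^ d = (n : ℝ) ^ f := by
      rw [← Real.rpow_natCast, ← Real.rpow_mul hn0.le, ← Real.rpow_natCast]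
      congr 1
      have hd0 : (d : ℝ) ≠ 0 := by positivity
      rw [sub_mul, one_mul, one_div_mul_cancel hd0, hd']
      push_cast
      ring
    rw [mul_pow, e1, e2]
    refine hmain.trans ?_
    have e3 : C2 ≤ C2 ^ d := le_self_pow₀ hC21 (by omega)
    calc C2 * (N ^ d * ℓ ^ (r * d)) ≤ C2 ^ d * (N ^ d * ℓ ^ (r * d)) := by gcongr
      _ = (C2 * (N * ℓ ^ r)) ^ d := by rw [mul_pow C2, mul_pow (N : ℝ), ← pow_mul]
  have hℓk : ℓ ≤ 3 * r / ε * (k : ℝ) ^ (ε / r) := by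
    have e1 : (n : ℝ) + 1 ≤ (k : ℝ) ^ 3 := by
      have e0 : (k : ℝ) * y ≤ k * k := mul_le_mul_of_nonneg_left hyk' hk0.le
      have e4 : (1 : ℝ) ≤ k * k := by nlinarith
      have e5 : 2 * ((k : ℝ) * k) ≤ k * (k * k) := by
        apply mul_le_mul_of_nonneg_right _ (by positivity)
        linarith
      calc (n : ℝ) + 1 ≤ k * y + 1 := by linarith
        _ ≤ k * k + k * k := by linarith
        _ ≤ k * (k * k) := by linarith
        _ = (k : ℝ) ^ 3 := by ring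
    have e2 : ℓ ≤ 3 * Real.log k := by
      have := Real.log_le_log (by linarith) e1
      rw [Real.log_pow] at this
      push_cast at this
      exact this
    have e3 : Real.log k ≤ (k : ℝ) ^ (ε / r) / (ε / r) :=
      Real.log_le_rpow_div hk0.le (by positivity)
    calc ℓ ≤ 3 * ((k : ℝ) ^ (ε / r) / (ε / r)) := by linarith
      _ = 3 * r / ε * (k : ℝ) ^ (ε / r) := by field_simp
  have hℓr : ℓ ^ r ≤ (3 * r / ε) ^ r * (k : ℝ) ^ ε := by
    calc ℓ ^ r ≤ (3 * r / ε * (k : ℝ) ^ (ε / r)) ^ r := pow_le_pow_left₀ hℓ0.le hℓk _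
      _ = (3 * r / ε) ^ r * (k : ℝ) ^ ε := by
          rw [mul_pow, ← Real.rpow_natCast ((k : ℝ) ^ (ε / r)), ← Real.rpow_mul hk0.le,
            div_mul_cancel₀ _ (by positivity)]
  have hkε : (k : ℝ) ^ ε * (k : ℝ) ^ (-ε) = 1 := by
    rw [← Real.rpow_add hk0, add_neg_cancel, Real.rpow_zero]
  calc (s : ℝ) ^ (1 / (d : ℝ)) * (n : ℝ) ^ (1 - 1 / (d : ℝ)) * (k : ℝ) ^ (-ε)
      ≤ C2 * (N * ℓ ^ r) * (k : ℝ) ^ (-ε) := by gcongr
    _ ≤ C2 * (N * ((3 * r / ε) ^ r * (k : ℝ) ^ ε)) * (k : ℝ) ^ (-ε) := by gcongr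
    _ = C2 * (3 * r / ε) ^ r * N * ((k : ℝ) ^ ε * (k : ℝ) ^ (-ε)) := by ring
    _ = C2 * (3 * r / ε) ^ r * N := by rw [hkε, mul_one]
    _ ≤ (C2 * (3 * r / ε) ^ r + 1) * N := by linarith

/-- TARGET 1. -/
theorem lr_numeric (d r : ℕ) (hd : 2 ≤ d) (hr : 1 ≤ r) (ε : ℝ) (hε : 0 < ε) :
    ∃ c : ℝ, 0 < c ∧ ∀ k n s N : ℕ, 1 ≤ k → k + 1 ≤ s → 2 * s ≤ n → 1 ≤ N →
      (∀ n' s' : ℕ, n' ≤ n → s' ≤ s → k + 1 ≤ s' → 2 * s' ≤ n' → k + d ≤ n' →
        ∀ L m q k₁ : ℕ, k₁ + r * m ≤ k → 1 ≤ q → 2 * n' ≤ q * k₁ →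
          2 * ((N + 1) ^ d * (n' + 1) ^ r) * (q ^ r - 1) ^ L < q ^ (r * L) →
          (s' - k₁) * (n' - s' - k₁).choose (d - 1) * (m + 1) ≤
            (N + 1) ^ d * (r ^ d * (m + 1) + (r * L + 1) ^ (r * d))) →
      c * min ((s : ℝ) ^ (1 / (d : ℝ)) * (n : ℝ) ^ (1 - 1 / (d : ℝ)))
        ((k : ℝ) ^ (1 + ((d : ℝ) - 1) / ((d : ℝ) ^ 2 * (r : ℝ) ^ 2))) * (k : ℝ) ^ (-ε) ≤ N := by
  have hdR : (2 : ℝ) ≤ d := by exact_mod_cast hd
  have hrR : (1 : ℝ) ≤ r := by exact_mod_cast hr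
  obtain ⟨C, hC1, hC⟩ := h183r_a d r hd hr ε hε
  have hC0 : 0 < C := by linarith
  obtain ⟨P, hP⟩ : ∃ P : ℕ, P = 4 ^ (r * (r * d)) := ⟨_, rfl⟩
  set K : ℕ := 4 * d + P with hK
  have hK0 : (0 : ℝ) < K := by
    have : 0 < K := by omega
    exact_mod_cast this
  refine ⟨min (1 / (K : ℝ) ^ 2) (1 / (2 * C)), by positivity, ?_⟩
  intro k n s N hk hks hsn hN H
  set c := min (1 / (K : ℝ) ^ 2) (1 / (2 * C)) with hc
  have hc0 : 0 < c := by positivity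
  have hc2 : c ≤ 1 / (K : ℝ) ^ 2 := min_le_left _ _
  have hc3 : c ≤ 1 / (2 * C) := min_le_right _ _
  have hkR : (1 : ℝ) ≤ k := by exact_mod_cast hk
  have hNR : (1 : ℝ) ≤ N := by exact_mod_cast hN
  have hk0 : (0 : ℝ) < k := by linarith
  have hn0 : (0 : ℝ) < n := by
    have : 0 < n := by omega
    exact_mod_cast this
  have hke : (k : ℝ) ^ (-ε) ≤ 1 := by
    apply Real.rpow_le_one_of_one_le_of_nonpos hkR
    linarith
  have hke0 : 0 ≤ (k : ℝ) ^ (-ε) := by positivity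
  set e : ℝ := 1 + ((d : ℝ) - 1) / ((d : ℝ) ^ 2 * (r : ℝ) ^ 2) with he
  set μ := min ((s : ℝ) ^ (1 / (d : ℝ)) * (n : ℝ) ^ (1 - 1 / (d : ℝ))) ((k : ℝ) ^ e) with hμ
  have hμ0 : 0 ≤ μ := le_min (by positivity) (by positivity)
  have hμs : μ ≤ (s : ℝ) ^ (1 / (d : ℝ)) * (n : ℝ) ^ (1 - 1 / (d : ℝ)) := min_le_left _ _
  have hμk : μ ≤ (k : ℝ) ^ e := min_le_right _ _
  by_cases hkK : K ≤ k
  · have hk4 : 4 * d ≤ k := by omega
    have h4k : 4 ^ (r * (r * d)) ≤ k := by rw [← hP]; omega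
    set y : ℝ := (k : ℝ) ^ (1 / ((d : ℝ) * (r : ℝ) ^ 2)) with hy
    have hy1 : 4 ≤ y := by
      have h4kR : (4 : ℝ) ^ (r * (r * d)) ≤ k := by exact_mod_cast h4k
      have e1 : ((4 : ℝ) ^ (r * (r * d))) ^ (1 / ((d : ℝ) * (r : ℝ) ^ 2)) = 4 := by
        rw [← Real.rpow_natCast, ← Real.rpow_mul (by norm_num)]
        have : ((r * (r * d) : ℕ) : ℝ) * (1 / ((d : ℝ) * (r : ℝ) ^ 2)) = 1 := by
          push_cast
          field_simp
        rw [this, Real.rpow_one]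
      rw [hy]
      calc (4 : ℝ) = ((4 : ℝ) ^ (r * (r * d))) ^ (1 / ((d : ℝ) * (r : ℝ) ^ 2)) := e1.symm
        _ ≤ (k : ℝ) ^ (1 / ((d : ℝ) * (r : ℝ) ^ 2)) :=
            Real.rpow_le_rpow (by positivity) h4kR (by positivity)
    set x : ℝ := k * y with hx
    have hx4 : 4 * (k : ℝ) ≤ x := by nlinarith
    have hx0 : 0 < x := by linarith
    by_cases hnx : (n : ℝ) ≤ x
    · have h1 := hC k n s N hk4 hks hsn hN hnx (H n s le_rfl le_rfl hks hsn (by omega))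
      calc c * μ * (k : ℝ) ^ (-ε)
          ≤ 1 / (2 * C) * ((s : ℝ) ^ (1 / (d : ℝ)) * (n : ℝ) ^ (1 - 1 / (d : ℝ))) *
            (k : ℝ) ^ (-ε) := by gcongr
        _ = 1 / (2 * C) * ((s : ℝ) ^ (1 / (d : ℝ)) * (n : ℝ) ^ (1 - 1 / (d : ℝ)) *
            (k : ℝ) ^ (-ε)) := by ring
        _ ≤ 1 / (2 * C) * (C * N) := by gcongr
        _ = N / 2 := by field_simp
        _ ≤ N := by linarith
    · push Not at hnx
      set n' := ⌊x⌋₊ with hn'
      have hn'x : (n' : ℝ) ≤ x := Nat.floor_le hx0.le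
      have hxn' : x < n' + 1 := Nat.lt_floor_add_one x
      have hn'n : n' ≤ n := by
        have : (n' : ℝ) ≤ n := by linarith
        exact_mod_cast this
      have h4n : 4 * k ≤ n' := by
        apply Nat.le_floor
        push_cast
        exact hx4
      set s' := min s (n' / 2) with hs'
      have h1 : s' ≤ s := min_le_left _ _
      have h2 : k + 1 ≤ s' := le_min hks (by omega)
      have h3 : 2 * s' ≤ n' := by
        have : s' ≤ n' / 2 := min_le_right _ _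
        omega
      have h4 := hC k n' s' N hk4 h2 h3 hN hn'x (H n' s' hn'n h1 h2 h3 (by omega))
      have hs'k : (k : ℝ) ≤ s' := by
        have : k ≤ s' := by omega
        exact_mod_cast this
      have hn'x2 : x / 2 ≤ n' := by linarith
      have h1d : 0 ≤ 1 - 1 / (d : ℝ) := by
        have : 1 / (d : ℝ) ≤ 1 := by rw [div_le_one (by linarith)]; linarith
        linarith
      have h5 : (k : ℝ) ^ e ≤ 2 * ((s' : ℝ) ^ (1 / (d : ℝ)) * (n' : ℝ) ^ (1 - 1 / (d : ℝ))) := by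
        have e1 : (k : ℝ) ^ e = (k : ℝ) ^ (1 / (d : ℝ)) * x ^ (1 - 1 / (d : ℝ)) := by
          have e2 : x = (k : ℝ) ^ (1 + 1 / ((d : ℝ) * (r : ℝ) ^ 2)) := by
            rw [Real.rpow_add hk0, Real.rpow_one]
          rw [e2, ← Real.rpow_mul hk0.le, ← Real.rpow_add hk0]
          congr 1
          rw [he]
          field_simp
          ring
        have e3 : x ^ (1 - 1 / (d : ℝ)) ≤ 2 * (x / 2) ^ (1 - 1 / (d : ℝ)) := by
          have e4 : x ^ (1 - 1 / (d : ℝ)) =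
              (2 : ℝ) ^ (1 - 1 / (d : ℝ)) * (x / 2) ^ (1 - 1 / (d : ℝ)) := by
            rw [← Real.mul_rpow (by norm_num) (by positivity)]
            congr 1
            ring
          have e5 : (2 : ℝ) ^ (1 - 1 / (d : ℝ)) ≤ 2 := by
            calc (2 : ℝ) ^ (1 - 1 / (d : ℝ)) ≤ (2 : ℝ) ^ (1 : ℝ) := by
                  apply Real.rpow_le_rpow_of_exponent_le (by norm_num)
                  have : 0 ≤ 1 / (d : ℝ) := by positivity
                  linarith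
              _ = 2 := Real.rpow_one _
          rw [e4]
          gcongr
        rw [e1]
        calc (k : ℝ) ^ (1 / (d : ℝ)) * x ^ (1 - 1 / (d : ℝ))
            ≤ (s' : ℝ) ^ (1 / (d : ℝ)) * (2 * (x / 2) ^ (1 - 1 / (d : ℝ))) := by gcongr
          _ ≤ (s' : ℝ) ^ (1 / (d : ℝ)) * (2 * (n' : ℝ) ^ (1 - 1 / (d : ℝ))) := by gcongr
          _ = _ := by ring
      calc c * μ * (k : ℝ) ^ (-ε)
          ≤ 1 / (2 * C) * (2 * ((s' : ℝ) ^ (1 / (d : ℝ)) * (n' : ℝ) ^ (1 - 1 / (d : ℝ)))) *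
            (k : ℝ) ^ (-ε) := by
            gcongr
            exact hμk.trans h5
        _ = 1 / C * ((s' : ℝ) ^ (1 / (d : ℝ)) * (n' : ℝ) ^ (1 - 1 / (d : ℝ)) *
            (k : ℝ) ^ (-ε)) := by field_simp
        _ ≤ 1 / C * (C * N) := by gcongr
        _ = N := by field_simp
  · have hkKR : (k : ℝ) ≤ K := by
      have : k ≤ K := by omega
      exact_mod_cast this
    have he2 : e ≤ 2 := by
      have : ((d : ℝ) - 1) / ((d : ℝ) ^ 2 * (r : ℝ) ^ 2) ≤ 1 := by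
        rw [div_le_one (by positivity)]
        have h1 : (1 : ℝ) ≤ (r : ℝ) ^ 2 := one_le_pow₀ hrR
        nlinarith
      linarith
    have h4 : (k : ℝ) ^ e ≤ (K : ℝ) ^ 2 := by
      calc (k : ℝ) ^ e ≤ (k : ℝ) ^ (2 : ℝ) := Real.rpow_le_rpow_of_exponent_le hkR he2
        _ = (k : ℝ) ^ 2 := by norm_cast
        _ ≤ (K : ℝ) ^ 2 := by gcongr
    calc c * μ * (k : ℝ) ^ (-ε) ≤ (1 / (K : ℝ) ^ 2) * (K : ℝ) ^ 2 * 1 := by
          gcongr
          exact hμk.trans h4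
      _ = 1 := by field_simp
      _ ≤ N := hNR

end Pool.Agent.Helper650_LocR

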