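import Mathlib

/-!
# Job LR1: a small random set contains one of `L` disjoint sets

Plain words.  For every `j ∈ J` let `P j 0, ..., P j (L-1)` be pairwise disjoint sets of at most `r`
vertices.  Take a uniformly random function `g : Fin n → Fin q` (count functions) and
`Z₁ = {v | g v = 0}`.  The sum of `|Z₁|` over all `g` is `n q^(n-1)`, so by Markov's inequality fewer
than half of the `g` have `|Z₁| ≥ k₁ + 1` (use `2 n ≤ q k₁`).  For fixed `j` the events
`P j i ⊆ Z₁` are independent and have probability `q^(-|P j i|) ≥ q^(-r)`, so the number of `g` such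
that `Z₁` contains no `P j i` is at most `q^n ((q^r - 1)/q^r)^L`.  By the last hypothesis these are
fewer than half of all `g`, for all `j` together.
-/

namespace Pool.Agent.Helper650_LocR

theorem h93_step {n q : ℕ} (z : Fin q) (E : Finset (Fin n → Fin q)) (v : Fin n)
    (hE : ∀ g ∈ E, ∀ a, Function.update g v a ∈ E) :
    (E.filter (fun g => g v = z)).card * q = E.card := by
  classical
  have h1 := Finset.card_eq_sum_card_fiberwise (f := fun g : Fin n → Fin q => g v) (s := E)
    (t := (Finset.univ : Finset (Fin q))) (fun g _ => by simp)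
  have h2 : ∀ a ∈ (Finset.univ : Finset (Fin q)),
      (E.filter (fun g => g v = a)).card = (E.filter (fun g => g v = z)).card := by
    intro a _
    refine Finset.card_nbij' (fun g => Function.update g v z) (fun g => Function.update g v a)
      ?_ ?_ ?_ ?_
    · intro g hg
      simp only [Finset.coe_filter, Set.mem_ofPred_eq] at hg ⊢
      exact ⟨hE g hg.1 z, by simp⟩
    · intro g hg
      simp only [Finset.coe_filter, Set.mem_ofPred_eq] at hg ⊢
      exact ⟨hE g hg.1 a, by simp⟩
    · intro g hg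
      simp only [Finset.coe_filter, Set.mem_ofPred_eq] at hg
      simp only [Function.update_idem]
      rw [← hg.2, Function.update_eq_self]
    · intro g hg
      simp only [Finset.coe_filter, Set.mem_ofPred_eq] at hg
      simp only [Function.update_idem]
      rw [← hg.2, Function.update_eq_self]
  rw [h1, Finset.sum_congr rfl h2, Finset.sum_const, Finset.card_univ, Fintype.card_fin,
    smul_eq_mul, mul_comm]

theorem h93_set {n q : ℕ} (z : Fin q) (E : Finset (Fin n → Fin q)) (P : Finset (Fin n))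
    (hE : ∀ g ∈ E, ∀ v ∈ P, ∀ a, Function.update g v a ∈ E) :
    (E.filter (fun g => ∀ v ∈ P, g v = z)).card * q ^ P.card = E.card := by
  classical
  induction P using Finset.induction_on with
  | empty => simp
  | insert v P hv ih =>
    have ih' := ih (fun g hg w hw a => hE g hg w (Finset.mem_insert_of_mem hw) a)
    have h1 : E.filter (fun g => ∀ w ∈ insert v P, g w = z)
        = (E.filter (fun g => ∀ w ∈ P, g w = z)).filter (fun g => g v = z) := by
      ext g
      simp only [Finset.mem_filter, Finset.forall_mem_insert]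
      tauto
    have h2 := h93_step z (E.filter (fun g => ∀ w ∈ P, g w = z)) v (by
      intro g hg a
      rw [Finset.mem_filter] at hg ⊢
      refine ⟨hE g hg.1 v (Finset.mem_insert_self v P) a, fun w hw => ?_⟩
      have hwv : w ≠ v := fun h => hv (h ▸ hw)
      rw [Function.update_of_ne hwv]
      exact hg.2 w hw)
    rw [h1, Finset.card_insert_of_notMem hv, pow_succ, mul_comm (q ^ P.card) q, ← mul_assoc, h2,
      ih']

theorem h93_main {n q r L : ℕ} (hq : 1 ≤ q) (z : Fin q) (P : Fin L → Finset (Fin n))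
    (hcard : ∀ i, (P i).card ≤ r) (hdisj : ∀ i i', i ≠ i' → Disjoint (P i) (P i'))
    (s : Finset (Fin L)) :
    ((Finset.univ : Finset (Fin n → Fin q)).filter
      (fun g => ∀ i ∈ s, ∃ v ∈ P i, g v ≠ z)).card * (q ^ r) ^ s.card
      ≤ q ^ n * (q ^ r - 1) ^ s.card := by
  classical
  induction s using Finset.induction_on with
  | empty => simp
  | insert i s hi ih =>
    set E := (Finset.univ : Finset (Fin n → Fin q)).filter
      (fun g => ∀ i ∈ s, ∃ v ∈ P i, g v ≠ z) with hE
    have h1 : (Finset.univ : Finset (Fin n → Fin q)).filter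
        (fun g => ∀ i' ∈ insert i s, ∃ v ∈ P i', g v ≠ z)
        = E.filter (fun g => ¬ ∀ v ∈ P i, g v = z) := by
      ext g
      simp only [hE, Finset.mem_filter, Finset.mem_univ, true_and, Finset.forall_mem_insert]
      push Not
      tauto
    have h2 := h93_set z E (P i) (by
      intro g hg v hv a
      rw [hE, Finset.mem_filter] at hg ⊢
      refine ⟨Finset.mem_univ _, fun i' hi' => ?_⟩
      obtain ⟨w, hw, hwz⟩ := hg.2 i' hi'
      refine ⟨w, hw, ?_⟩
      have hne : i ≠ i' := fun h => hi (h ▸ hi')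
      have hwv : w ≠ v := fun h => (Finset.disjoint_left.1 (hdisj i i' hne)) hv (h ▸ hw)
      rwa [Function.update_of_ne hwv])
    have h3 := Finset.card_filter_add_card_filter_not (s := E) (fun g => ∀ v ∈ P i, g v = z)
    set a := (E.filter (fun g => ∀ v ∈ P i, g v = z)).card
    set b := (E.filter (fun g => ¬ ∀ v ∈ P i, g v = z)).card with hb
    have h4 : E.card ≤ a * q ^ r := by
      rw [← h2]
      exact Nat.mul_le_mul_left _ (Nat.pow_le_pow_right hq (hcard i))
    have h5 : 1 ≤ q ^ r := Nat.one_le_pow _ _ hq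
    have h6 : b * q ^ r ≤ E.card * (q ^ r - 1) := by
      obtain ⟨m, hm⟩ : ∃ m, q ^ r = m + 1 := ⟨q ^ r - 1, by omega⟩
      rw [hm] at h4 ⊢
      simp only [Nat.add_sub_cancel]
      have : E.card * m + E.card = (a + b) * (m + 1) := by rw [h3]; ring
      nlinarith
    rw [h1, Finset.card_insert_of_notMem hi]
    calc b * (q ^ r) ^ (s.card + 1) = (b * q ^ r) * (q ^ r) ^ s.card := by ring
      _ ≤ (E.card * (q ^ r - 1)) * (q ^ r) ^ s.card := Nat.mul_le_mul_right _ h6
      _ = (E.card * (q ^ r) ^ s.card) * (q ^ r - 1) := by ring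
      _ ≤ (q ^ n * (q ^ r - 1) ^ s.card) * (q ^ r - 1) := Nat.mul_le_mul_right _ ih
      _ = q ^ n * (q ^ r - 1) ^ (s.card + 1) := by ring

/-- TARGET 1. -/
theorem lr_random {ι : Type*} (n k₁ q r L : ℕ) (hk : 2 * n ≤ q * k₁) (hq : 1 ≤ q)
    (J : Finset ι) (P : ι → Fin L → Finset (Fin n))
    (hcard : ∀ j ∈ J, ∀ i, (P j i).card ≤ r)
    (hdisj : ∀ j ∈ J, ∀ i i', i ≠ i' → Disjoint (P j i) (P j i'))
    (hJ : 2 * J.card * (q ^ r - 1) ^ L < q ^ (r * L)) :
    ∃ Z₁ : Finset (Fin n), Z₁.card ≤ k₁ ∧ ∀ j ∈ J, ∃ i, P j i ⊆ Z₁ := by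
  classical
  let z : Fin q := ⟨0, hq⟩
  let Z : (Fin n → Fin q) → Finset (Fin n) := fun g => Finset.univ.filter (fun v => g v = z)
  have hqn : 0 < q ^ n := pow_pos hq n
  -- the functions for which the set is too large
  let A := (Finset.univ : Finset (Fin n → Fin q)).filter (fun g => k₁ + 1 ≤ (Z g).card)
  have hsum : (∑ g : Fin n → Fin q, (Z g).card) * q = n * q ^ n := by
    have h1 : ∑ g : Fin n → Fin q, (Z g).card
        = ∑ v : Fin n, ((Finset.univ : Finset (Fin n → Fin q)).filter (fun g => g v = z)).card := by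
      simp only [Z, Finset.card_filter]
      rw [Finset.sum_comm]
    rw [h1, Finset.sum_mul, Finset.sum_congr rfl (fun v _ =>
      h93_step z Finset.univ v (fun g _ a => Finset.mem_univ _))]
    simp
  have hA1 : A.card * (k₁ + 1) ≤ ∑ g : Fin n → Fin q, (Z g).card := by
    calc A.card * (k₁ + 1) = ∑ g ∈ A, (k₁ + 1) := by simp
      _ ≤ ∑ g ∈ A, (Z g).card := Finset.sum_le_sum (fun g hg => (Finset.mem_filter.1 hg).2)
      _ ≤ _ := Finset.sum_le_sum_of_subset (Finset.subset_univ _)
  have hA : 2 * A.card < q ^ n := by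
    by_contra hcon
    push Not at hcon
    have h1 : q ^ n * (k₁ + 1) * q ≤ 2 * (n * q ^ n) := by
      calc q ^ n * (k₁ + 1) * q ≤ (2 * A.card) * (k₁ + 1) * q :=
            Nat.mul_le_mul_right _ (Nat.mul_le_mul_right _ hcon)
        _ = 2 * ((A.card * (k₁ + 1)) * q) := by ring
        _ ≤ 2 * ((∑ g : Fin n → Fin q, (Z g).card) * q) :=
            Nat.mul_le_mul_left _ (Nat.mul_le_mul_right _ hA1)
        _ = _ := by rw [hsum]
    have h2 : 2 * (n * q ^ n) ≤ q ^ n * k₁ * q := by
      calc 2 * (n * q ^ n) = (2 * n) * q ^ n := by ring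
        _ ≤ (q * k₁) * q ^ n := Nat.mul_le_mul_right _ hk
        _ = _ := by ring
    have h3 : q ^ n * k₁ * q < q ^ n * (k₁ + 1) * q := by
      apply Nat.mul_lt_mul_of_pos_right _ hq
      exact Nat.mul_lt_mul_of_pos_left (Nat.lt_succ_self _) hqn
    omega
  -- the functions which are bad for `j`
  let B : ι → Finset (Fin n → Fin q) := fun j =>
    (Finset.univ : Finset (Fin n → Fin q)).filter (fun g => ∀ i, ∃ v ∈ P j i, g v ≠ z)
  have hB1 : ∀ j ∈ J, (B j).card * (q ^ r) ^ L ≤ q ^ n * (q ^ r - 1) ^ L := by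
    intro j hj
    have h1 := h93_main hq z (P j) (hcard j hj) (hdisj j hj) Finset.univ
    simpa [B] using h1
  have hB : 2 * ∑ j ∈ J, (B j).card < q ^ n := by
    by_contra hcon
    push Not at hcon
    have h1 : q ^ n * (q ^ r) ^ L ≤ 2 * J.card * (q ^ r - 1) ^ L * q ^ n := by
      calc q ^ n * (q ^ r) ^ L ≤ (2 * ∑ j ∈ J, (B j).card) * (q ^ r) ^ L :=
            Nat.mul_le_mul_right _ hcon
        _ = 2 * ∑ j ∈ J, (B j).card * (q ^ r) ^ L := by rw [mul_assoc, Finset.sum_mul]
        _ ≤ 2 * ∑ j ∈ J, q ^ n * (q ^ r - 1) ^ L :=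
            Nat.mul_le_mul_left _ (Finset.sum_le_sum hB1)
        _ = _ := by rw [Finset.sum_const, smul_eq_mul]; ring
    rw [pow_mul] at hJ
    have h2 := Nat.mul_lt_mul_of_pos_right hJ hqn
    rw [mul_comm ((q ^ r) ^ L)] at h2
    omega
  have hex : ∃ g : Fin n → Fin q, g ∉ A ∪ J.biUnion B := by
    by_contra hcon
    push Not at hcon
    have h1 : (A ∪ J.biUnion B) = Finset.univ := Finset.eq_univ_iff_forall.2 hcon
    have h2 : (A ∪ J.biUnion B).card ≤ A.card + ∑ j ∈ J, (B j).card :=
      (Finset.card_union_le _ _).trans (Nat.add_le_add_left Finset.card_biUnion_le _)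
    rw [h1, Finset.card_univ, Fintype.card_fun, Fintype.card_fin, Fintype.card_fin] at h2
    omega
  obtain ⟨g, hg⟩ := hex
  rw [Finset.mem_union, not_or] at hg
  refine ⟨Z g, ?_, fun j hj => ?_⟩
  · have h1 : ¬ (k₁ + 1 ≤ (Z g).card) := fun h => hg.1 (Finset.mem_filter.2 ⟨Finset.mem_univ _, h⟩)
    omega
  · by_contra hcon
    apply hg.2
    rw [Finset.mem_biUnion]
    refine ⟨j, hj, Finset.mem_filter.2 ⟨Finset.mem_univ _, fun i => ?_⟩⟩
    have h1 : ¬ P j i ⊆ Z g := fun h => hcon ⟨i, h⟩
    rw [Finset.not_subset] at h1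
    obtain ⟨v, hv, hvz⟩ := h1
    exact ⟨v, hv, fun h => hvz (Finset.mem_filter.2 ⟨Finset.mem_univ _, h⟩)⟩

end Pool.Agent.Helper650_LocR

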